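import Pool.Agent.Lib.MP_ef13ad_lc.Defs

open Cardinal Ordinal Set Order

namespace Pool.Agent.MP_ef13ad_lc

variable {A B : Set Ordinal.{0}} {c c' : Cardinal.{0}} {n o : Ordinal.{0}}
  {P Q : Ordinal.{0} → Prop}

theorem Sz.mono (h : Sz B c) (hAB : A ⊆ B) : Sz A c :=
  (mk_le_mk_of_subset hAB).trans h

theorem Sz.trans_le (h : Sz A c) (hc : c ≤ c') : Sz A c' :=
  le_trans h (Cardinal.lift_le.2 hc)

theorem Sz.image (h : Sz A c) (f : Ordinal.{0} → Ordinal.{0}) : Sz (f '' A) c :=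
  mk_image_le.trans h

theorem Sz.union (hA : Sz A c) (hB : Sz B c) (hc : ℵ₀ ≤ c) : Sz (A ∪ B) c :=
  (mk_union_le A B).trans (add_le_of_le (by simpa using hc) hA hB)

theorem Sz.biUnion {T : Ordinal.{0} → Set Ordinal.{0}} (hA : Sz A c) (hT : ∀ a ∈ A, Sz (T a) c)
    (hc : ℵ₀ ≤ c) : Sz (⋃ a ∈ A, T a) c := by
  refine (mk_biUnion_le T A).trans ?_
  have h1 : ⨆ x : A, Cardinal.mk (T x.1) ≤ Cardinal.lift.{1} c := ciSup_le' fun x => hT x.1 x.2
  calc _ ≤ Cardinal.lift.{1} c * Cardinal.lift.{1} c := mul_le_mul' hA h1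
    _ = _ := mul_eq_self (by simpa using hc)

theorem Sz_Iio (h : o.card ≤ c) : Sz (Iio o) c := by
  unfold Sz
  rw [Cardinal.mk_Iio_ordinal]
  exact Cardinal.lift_le.2 h

theorem Sz_Iio_ord (c : Cardinal.{0}) : Sz (Iio c.ord) c := Sz_Iio (by simp)

theorem not_Sz_Iio (h : c < o.card) : ¬ Sz (Iio o) c := by
  unfold Sz
  rw [Cardinal.mk_Iio_ordinal, Cardinal.lift_le]
  exact h.not_ge

theorem Sz_of_countable (hA : A.Countable) (hc : ℵ₀ ≤ c) : Sz A c :=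
  (le_aleph0_iff_set_countable.2 hA).trans (by simpa using hc)

theorem Sz_of_subsingleton (hA : A.Subsingleton) (hc : ℵ₀ ≤ c) : Sz A c :=
  Sz_of_countable hA.countable hc

theorem Sz_singleton (a : Ordinal.{0}) (hc : ℵ₀ ≤ c) : Sz {a} c :=
  Sz_of_countable (countable_singleton a) hc

theorem Sz_of_injOn {f : Ordinal.{0} → Ordinal.{0}} (hB : Sz B c) (hf : InjOn f A)
    (hm : ∀ a ∈ A, f a ∈ B) : Sz A c := by
  have h := mk_image_eq_of_injOn f A hf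
  unfold Sz
  rw [← h]
  exact (mk_le_mk_of_subset (image_subset_iff.2 hm)).trans hB

theorem Sz.small (h : Sz A c) : Small.{0} A := by
  have : Cardinal.mk A < Cardinal.univ.{0, 1} := h.trans_lt (lift_lt_univ c)
  obtain ⟨d, hd⟩ := Cardinal.lt_univ.1 this
  exact small_iff_lift_mk_lt_univ.2 (by simpa using this)

theorem Sz.bddAbove (h : Sz A c) : BddAbove A := by
  have := h.small
  exact bddAbove_of_small

theorem bdd_image (x : Ordinal.{0} → Ordinal.{0}) (g : Ordinal.{0}) : BddAbove (x '' Iio g) :=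
  ((Sz_Iio le_rfl).image x).bddAbove

theorem le_sSup_image (x : Ordinal.{0} → Ordinal.{0}) {g j : Ordinal.{0}} (hj : j < g) :
    x j ≤ sSup (x '' Iio g) :=
  le_csSup (bdd_image x g) ⟨j, hj, rfl⟩

theorem lt_sSup_image {x : Ordinal.{0} → Ordinal.{0}} {g b : Ordinal.{0}}
    (h : b < sSup (x '' Iio g)) : ∃ j < g, b < x j := by
  by_contra hc
  push Not at hc
  exact h.not_ge (csSup_le' (by rintro _ ⟨j, hj, rfl⟩; exact hc j hj))

theorem Sz.sSup_lt (h : Sz A c) (hc : c < o.cof) (hA : ∀ a ∈ A, a < o) : sSup A < o := by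
  refine sSup_lt_of_lt_cof (lt_of_le_of_lt h ?_) hA
  rw [← Ordinal.lift_cof]
  exact Cardinal.lift_lt.2 hc

theorem Sz.exists_bound (h : Sz A c) (hc : c < o.cof) (hA : ∀ a ∈ A, a < o) :
    ∃ b < o, ∀ a ∈ A, a < b := by
  refine ⟨sSup ((· + 1) '' A), sSup_add_one_lt_of_lt_cof (lt_of_le_of_lt h ?_) hA, fun a ha => ?_⟩
  · rw [← Ordinal.lift_cof]
    exact Cardinal.lift_lt.2 hc
  · exact (lt_add_one a).trans_le (le_csSup (h.image _).bddAbove ⟨a, ha, rfl⟩)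

/-- A uniform bound for witnesses. -/
theorem Sz.exists_bound_of_forall {R : Ordinal.{0} → Ordinal.{0} → Prop} (h : Sz A c)
    (hc : c < o.cof) (hR : ∀ a ∈ A, ∃ y < o, R a y) :
    ∃ b < o, ∀ a ∈ A, ∃ y < b, R a y := by
  choose! y hy hy' using hR
  obtain ⟨b, hb, hb'⟩ := (h.image y).exists_bound hc (by rintro _ ⟨a, ha, rfl⟩; exact hy a ha)
  exact ⟨b, hb, fun a ha => ⟨y a, hb' _ ⟨a, ha, rfl⟩, hy' a ha⟩⟩

theorem sSup_image_lt {x : Ordinal.{0} → Ordinal.{0}} {g : Ordinal.{0}} (hg : g.card < o.cof)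
    (hx : ∀ j < g, x j < o) : sSup (x '' Iio g) < o :=
  ((Sz_Iio le_rfl).image x).sSup_lt hg (by rintro _ ⟨j, hj, rfl⟩; exact hx j hj)

/-- Pigeonhole principle with one colouring. -/
theorem pigeon1 {B1 : Set Ordinal.{0}} (f1 : Ordinal.{0} → Ordinal.{0}) (hc : ℵ₀ ≤ c)
    (hA : ¬ Sz A c) (h1 : Sz B1 c) (m1 : ∀ a ∈ A, f1 a ∈ B1) :
    ∃ u ∈ B1, ¬ Sz {a | a ∈ A ∧ f1 a = u} c := by
  by_contra hn
  push Not at hn
  exact hA ((h1.biUnion hn hc).mono fun a ha => mem_biUnion (m1 a ha) ⟨ha, rfl⟩)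

/-- Pigeonhole principle with two colourings. -/
theorem pigeon2 {B1 B2 : Set Ordinal.{0}} (f1 f2 : Ordinal.{0} → Ordinal.{0}) (hc : ℵ₀ ≤ c)
    (hA : ¬ Sz A c) (h1 : Sz B1 c) (h2 : Sz B2 c) (m1 : ∀ a ∈ A, f1 a ∈ B1)
    (m2 : ∀ a ∈ A, f2 a ∈ B2) :
    ∃ u ∈ B1, ∃ v ∈ B2, ¬ Sz {a | a ∈ A ∧ f1 a = u ∧ f2 a = v} c := by
  obtain ⟨u, hu, h⟩ := pigeon1 f1 hc hA h1 m1
  obtain ⟨v, hv, h'⟩ := pigeon1 f2 hc h h2 (fun a ha => m2 a ha.1)
  exact ⟨u, hu, v, hv, fun hs => h' (hs.mono fun a ha => ⟨ha.1.1, ha.1.2, ha.2⟩)⟩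

theorem AE.mono (h : AE n P) (hPQ : ∀ i < n, P i → Q i) : AE n Q := by
  obtain ⟨j, hj, h⟩ := h
  exact ⟨j, hj, fun i h1 h2 => hPQ i h2 (h i h1 h2)⟩

theorem AE.and (hP : AE n P) (hQ : AE n Q) : AE n (fun i => P i ∧ Q i) := by
  obtain ⟨j, hj, h⟩ := hP
  obtain ⟨j', hj', h'⟩ := hQ
  exact ⟨max j j', max_lt hj hj', fun i h1 h2 =>
    ⟨h i ((le_max_left _ _).trans h1) h2, h' i ((le_max_right _ _).trans h1) h2⟩⟩

theorem AE.exists (h : AE n P) : ∃ i < n, P i := by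
  obtain ⟨j, hj, h⟩ := h
  exact ⟨j, hj, h j le_rfl hj⟩

theorem AE_of_forall (hn : 0 < n) (h : ∀ i < n, P i) : AE n P :=
  ⟨0, hn, fun i _ h2 => h i h2⟩

theorem AE.exists_not (hQ : AE n Q) (hP : ¬ AE n P) : ∃ i < n, Q i ∧ ¬ P i := by
  by_contra hc
  push Not at hc
  exact hP (hQ.mono hc)

theorem AE_ball {R : Ordinal.{0} → Ordinal.{0} → Prop} (hA : Sz A c) (hc : c < n.cof)
    (h : ∀ a ∈ A, AE n (R a)) : AE n (fun i => ∀ a ∈ A, R a i) := by
  obtain ⟨b, hb, hb'⟩ := hA.exists_bound_of_forall hc h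
  refine ⟨b, hb, fun i h1 h2 a ha => ?_⟩
  obtain ⟨y, hy, hy'⟩ := hb' a ha
  exact hy' i (hy.le.trans h1) h2

theorem Inc.le {F : Ordinal.{0} → Ordinal.{0} → Ordinal.{0}} {L b b' : Ordinal.{0}}
    (h : Inc n F L) (hn : 0 < n) (hb : b ≤ b') (hb' : b' < L) :
    AE n (fun i => F b i ≤ F b' i) := by
  rcases hb.eq_or_lt with rfl | hb
  · exact AE_of_forall hn fun _ _ => le_rfl
  · exact (h b b' hb hb').mono fun _ _ h => h.le

theorem Inc.mono {F : Ordinal.{0} → Ordinal.{0} → Ordinal.{0}} {L L' : Ordinal.{0}}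
    (h : Inc n F L) (hL : L' ≤ L) : Inc n F L' :=
  fun b b' h1 h2 => h b b' h1 (h2.trans_le hL)

/-- A strictly increasing cofinal sequence of length the cofinality. -/
theorem exists_cofSeq (o : Ordinal.{0}) : ∃ c : Ordinal.{0} → Ordinal.{0},
    StrictMonoOn c (Iio o.cof.ord) ∧ (∀ j < o.cof.ord, c j < o) ∧
      ∀ b < o, ∃ j < o.cof.ord, b ≤ c j := by
  classical
  obtain ⟨f, hf⟩ := exists_isFundamentalSeq (o := o) rfl
  refine ⟨fun j => if h : j < o.cof.ord then (f ⟨j, h⟩).1 else 0, ?_, ?_, ?_⟩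
  · intro a ha b hb hab
    have ha' : a < o.cof.ord := ha
    have hb' : b < o.cof.ord := hb
    simp only [ha', hb', dif_pos]
    exact hf.strictMono (show (⟨a, ha⟩ : Iio _) < ⟨b, hb⟩ from hab)
  · intro j hj
    simp only [hj, dif_pos]
    exact (f ⟨j, hj⟩).2
  · intro b hb
    obtain ⟨_, ⟨j, rfl⟩, h⟩ := hf.isCofinal_range ⟨b, hb⟩
    have hj : j.1 < o.cof.ord := j.2
    exact ⟨j.1, hj, by simp only [hj, dif_pos]; exact h⟩

/-- Recursion with choices along the ordinals. -/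
theorem exists_rec {β : Type*} [Inhabited β] (R : Ordinal.{0} → (Ordinal.{0} → β) → β → Prop)
    (hR : ∀ j x y b, (∀ l < j, x l = y l) → R j x b → R j y b) (hex : ∀ j x, ∃ b, R j x b) :
    ∃ x : Ordinal.{0} → β, ∀ j, R j x (x j) := by
  classical
  choose G hG using hex
  let x : Ordinal.{0} → β := fun j => WellFounded.fix (C := fun _ => β) wellFounded_lt
    (fun j ih => G j (fun l => if h : l < j then ih l h else default)) j
  refine ⟨x, fun j => ?_⟩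
  have hx : x j = G j (fun l => if l < j then x l else default) := by
    simp only [x]
    rw [WellFounded.fix_eq]
    rfl
  rw [hx]
  exact hR j _ _ _ (fun l hl => if_pos hl) (hG j _)

theorem exists_injOn_of_mk_le (h : Cardinal.mk A ≤ Cardinal.mk B) :
    ∃ e : Ordinal.{0} → Ordinal.{0}, InjOn e A ∧ ∀ a ∈ A, e a ∈ B := by
  classical
  obtain ⟨f⟩ := (Cardinal.le_def _ _).1 h
  refine ⟨fun a => if h : a ∈ A then (f ⟨a, h⟩).1 else 0, ?_, fun a ha => ?_⟩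
  · intro a ha b hb hab
    simp only [ha, hb, dif_pos] at hab
    exact congrArg Subtype.val (f.injective (Subtype.ext hab))
  · simp only [ha, dif_pos]
    exact (f ⟨a, ha⟩).2

theorem Sz.exists_injOn (h : Sz A c) :
    ∃ e : Ordinal.{0} → Ordinal.{0}, InjOn e A ∧ ∀ a ∈ A, e a < c.ord := by
  refine exists_injOn_of_mk_le (B := Iio c.ord) ?_
  rw [Cardinal.mk_Iio_ordinal, card_ord]
  exact h

theorem exists_injOn_of_not_Sz (h : ¬ Sz A c) :
    ∃ p : Ordinal.{0} → Ordinal.{0}, InjOn p (Iio (succ c).ord) ∧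
      ∀ j < (succ c).ord, p j ∈ A := by
  refine exists_injOn_of_mk_le (A := Iio (succ c).ord) ?_
  rw [Cardinal.mk_Iio_ordinal, card_ord, Cardinal.lift_succ]
  exact succ_le_of_lt (not_le.1 h)

theorem cof_sSup_image {x : Ordinal.{0} → Ordinal.{0}} {t : Cardinal.{0}} (ht : t.IsRegular)
    (hx : StrictMonoOn x (Iio t.ord)) : (sSup (x '' Iio t.ord)).cof = t := by
  have h := cof_iSup_Iio (a := t.ord) (f := fun i => x i.1) (fun a b hab => hx a.2 b.2 hab)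
    (isSuccLimit_ord ht.aleph0_le).isSuccPrelimit
  rw [ht.cof_ord] at h
  rw [sSup_image', h]

theorem sSup_image_eq_of_interleave {x y : Ordinal.{0} → Ordinal.{0}} {g : Ordinal.{0}}
    (h1 : ∀ j < g, ∃ j' < g, x j ≤ y j') (h2 : ∀ j < g, ∃ j' < g, y j ≤ x j') :
    sSup (x '' Iio g) = sSup (y '' Iio g) := by
  apply le_antisymm
  · refine csSup_le' ?_
    rintro _ ⟨j, hj, rfl⟩
    obtain ⟨j', hj', h⟩ := h1 j hj
    exact h.trans (le_sSup_image y hj')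
  · refine csSup_le' ?_
    rintro _ ⟨j, hj, rfl⟩
    obtain ⟨j', hj', h⟩ := h2 j hj
    exact h.trans (le_sSup_image x hj')

end Pool.Agent.MP_ef13ad_lc
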