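import Pool.Agent.Lib.MP_ef13ad_lc.Thin

open Cardinal Ordinal Set Order

namespace Pool.Agent.MP_ef13ad_lc

theorem clash_skolem {L : Ordinal.{0}} (hL : 0 < L)
    (R : Ordinal.{0} → Ordinal.{0} → Ordinal.{0} → Prop) :
    ∃ g : Ordinal.{0} → Ordinal.{0} → Ordinal.{0}, (∀ x y, g x y < L) ∧
      ∀ x y, (∃ z < L, R x y z) → R x y (g x y) := by
  have : ∀ x y, ∃ z < L, (∃ z < L, R x y z) → R x y z := by
    intro x y
    by_cases h : ∃ z < L, R x y z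
    · obtain ⟨z, hz, hz'⟩ := h
      exact ⟨z, hz, fun _ => hz'⟩
    · exact ⟨0, hL, fun h' => absurd h' h⟩
  choose g h1 h2 using this
  exact ⟨g, h1, h2⟩

theorem clash_cover {W Y : Set Ordinal.{0}} {c : Cardinal.{0}} (hc : ℵ₀ ≤ c) (hY : Sz Y c)
    (hW : ∀ y ∈ Y, Sz (W ∩ Iio y) c) (h : ∀ w ∈ W, ∃ y ∈ Y, w ≤ y) : Sz W c := by
  refine (hY.biUnion (T := fun y => W ∩ Iio y ∪ {y})
    (fun y hy => (hW y hy).union (Sz_singleton y hc) hc) hc).mono fun w hw => ?_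
  obtain ⟨y, hy, hwy⟩ := h w hw
  refine mem_biUnion hy ?_
  rcases hwy.eq_or_lt with rfl | hlt
  · exact Or.inr rfl
  · exact Or.inl ⟨hw, hlt⟩

theorem clash_max_mem {X : Set Ordinal.{0}} {x y : Ordinal.{0}} (hx : x ∈ X) (hy : y ∈ X) :
    max x y ∈ X := by
  rcases max_choice x y with h | h <;> rw [h] <;> assumption

theorem clash {l k : Cardinal.{0}} {n : Ordinal.{0}} {F : Ordinal.{0} → Ordinal.{0} → Ordinal.{0}}
    (T : Finset Cardinal.{0}) (hl : ℵ₀ ≤ l) (hn : n ≤ l.ord) (hk : ℵ₀ < k)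
    (hk' : k.ord.cof = ℵ₀) (hb : ∀ b < (succ l).ord, ∀ i < n, F b i < l.ord)
    (hF : Inc n F (succ l).ord) (hG : ∀ a < (succ l).ord, Good n F a ∨ a.cof ∈ T)
    (hlk : CC l k) (hku : ∀ u0 < k, ∃ u, u0 ≤ u ∧ u < k ∧ CC k u) : False := by
  have hLl : IsSuccLimit (succ l).ord := isSuccLimit_ord (hl.trans (le_succ l))
  have hL : 0 < (succ l).ord := hLl.pos
  have hlL : l.ord < (succ l).ord := ord_lt_ord.2 (lt_succ l)
  have hnL : n < (succ l).ord := hn.trans_lt hlL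
  have hn0 : 0 < n := by
    obtain ⟨i, hi, -⟩ := (hF 0 (0 + 1) (lt_add_one _) (hLl.add_one_lt hL)).exists
    exact (zero_le (a := i)).trans_lt hi
  choose cs hcs1 hcs2 hcs3 using exists_cofSeq
  have hd : ∀ a, ∃ d : Ordinal.{0} → Ordinal.{0} → Ordinal.{0}, Good n F a →
      (∀ b b', b ≤ b' → b' < a → ∀ i < n, d b i ≤ d b' i) ∧
      (∀ b < a, AE n (fun i => F b i ≤ d b i)) ∧
      ∀ b < a, ∃ b' < a, AE n (fun i => d b i < F b' i) := by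
    intro a
    by_cases h : Good n F a
    · obtain ⟨d, hd⟩ := h
      exact ⟨d, fun _ => hd⟩
    · exact ⟨fun _ _ => 0, fun h' => absurd h' h⟩
  choose d hd using hd
  obtain ⟨g0, b0, s0⟩ := clash_skolem hL fun b i z => z = F b i
  obtain ⟨g1, b1, s1⟩ := clash_skolem hL fun a j z => z = cs a j
  obtain ⟨g2, b2, s2⟩ := clash_skolem hL fun a b z => z < a.cof.ord ∧ b ≤ cs a z
  obtain ⟨g3, b3, s3⟩ := clash_skolem hL fun a b z => z < a ∧ AE n (fun i => d a b i < F z i)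
  obtain ⟨g4, b4, s4⟩ := clash_skolem hL fun a b z =>
    z < n ∧ ∀ i, z ≤ i → i < n → d a b i < F (g3 a b) i
  obtain ⟨g5, b5, s5⟩ := clash_skolem hL fun a b z =>
    z < n ∧ ∀ i, z ≤ i → i < n → F b i ≤ d a b i
  obtain ⟨g6, b6, s6⟩ := clash_skolem hL fun b b' z =>
    z < n ∧ ∀ i, z ≤ i → i < n → F b i ≤ F b' i
  obtain ⟨X, hXL, -, hcl, hXk, -, hK, hinit⟩ := hlk.closed hl
    (fun m => match m with
      | 0 => g0 | 1 => g1 | 2 => g2 | 3 => g3 | 4 => g4 | 5 => g5 | _ + 6 => g6)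
    (fun m x _ y _ => match m with
      | 0 => b0 x y | 1 => b1 x y | 2 => b2 x y | 3 => b3 x y | 4 => b4 x y | 5 => b5 x y
      | _ + 6 => b6 x y)
  have c0 : ∀ x ∈ X, ∀ y ∈ X, g0 x y ∈ X := hcl 0
  have c1 : ∀ x ∈ X, ∀ y ∈ X, g1 x y ∈ X := hcl 1
  have c2 : ∀ x ∈ X, ∀ y ∈ X, g2 x y ∈ X := hcl 2
  have c3 : ∀ x ∈ X, ∀ y ∈ X, g3 x y ∈ X := hcl 3
  have c4 : ∀ x ∈ X, ∀ y ∈ X, g4 x y ∈ X := hcl 4
  have c5 : ∀ x ∈ X, ∀ y ∈ X, g5 x y ∈ X := hcl 5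
  have c6 : ∀ x ∈ X, ∀ y ∈ X, g6 x y ∈ X := hcl 6
  obtain ⟨u0, hu0, hthin⟩ := exists_thin (F := F) (D := X ∩ Iio n) hk hk' hXk hinit hK
    (inter_subset_inter_right X (Iio_subset_Iio hn)) (by
      intro z hz i hi
      have h1 : F z i < l.ord := hb z (hXL hz) i hi.2
      exact ⟨s0 z i ⟨_, h1.trans hlL, rfl⟩ ▸ c0 z hz i hi.1, h1⟩)
  have hcof : ∀ e : Cardinal.{0}, ∃ c < k, e ≤ l → ∃ C ⊆ X ∩ Iio e.ord, Sz C c ∧
      ∀ x ∈ X ∩ Iio e.ord, ∃ y ∈ C, x ≤ y := by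
    intro e
    by_cases he : e ≤ l
    · obtain ⟨C, hC, ⟨c, hc, hc'⟩, hC'⟩ := (filt_of_cof hk' hK).exists_cofinal hk
        (inter_subset_inter_right X (Iio_subset_Iio (ord_le_ord.2 he)))
      exact ⟨c, hc, fun _ => ⟨C, hC, hc', hC'⟩⟩
    · exact ⟨ℵ₀, hk, fun h => absurd h he⟩
  choose sg hsg hsg' using hcof
  have hu1 : T.sup sg < k :=
    (Finset.sup_lt_iff (aleph0_pos.trans hk)).2 fun e _ => hsg e
  obtain ⟨u, hu, huk, hCC⟩ := hku (max (max u0 (T.sup sg)) ℵ₀) (max_lt (max_lt hu0 hu1) hk)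
  have hu' : ℵ₀ ≤ u := (le_max_right _ _).trans hu
  obtain ⟨Z, hZX, hZ, hZs, hZi, C, hC, V, hCu, hVu, hCV⟩ :=
    hthin u (((le_max_left _ _).trans (le_max_left _ _)).trans hu) hu' hCC
  have hne : {x | x ∈ X ∧ ∀ z ∈ Z, z < x}.Nonempty := by
    by_contra h
    refine hXk (clash_cover hk.le (hZs.trans_le (succ_le_of_lt huk))
      (fun y hy => hinit y (hZX hy)) fun w hw => ?_)
    by_contra h'
    push Not at h'
    exact h ⟨w, hw, h'⟩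
  obtain ⟨a, ⟨haX, haZ⟩, hmin⟩ : ∃ a, (a ∈ X ∧ ∀ z ∈ Z, z < a) ∧
      ∀ x ∈ X, x < a → ∃ z ∈ Z, x ≤ z := by
    refine ⟨_, csInf_mem hne, fun x hx hlt => ?_⟩
    by_contra h'
    push Not at h'
    exact hlt.not_ge (csInf_le' ⟨hx, h'⟩)
  have haL : a < (succ l).ord := hXL haX
  rcases hG a haL with hg | hT
  · obtain ⟨d1, d2, d3⟩ := hd a hg
    have key : ∀ b ∈ Z, ∃ z ∈ Z, ∃ i ∈ C, F z i ∈ V ∧ d a b i < F z i ∧ F z i ≤ d a z i := by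
      intro b hbZ
      have hbX := hZX hbZ
      obtain ⟨x1, x2⟩ := s3 a b (by
        obtain ⟨b', h1, h2⟩ := d3 b (haZ b hbZ)
        exact ⟨b', h1.trans haL, h1, h2⟩)
      obtain ⟨z, hz, hxz⟩ := hmin _ (c3 a haX b hbX) x1
      obtain ⟨y1, y2⟩ := s4 a b (by
        obtain ⟨j, h1, h2⟩ := x2
        exact ⟨j, h1.trans hnL, h1, h2⟩)
      obtain ⟨y3, y4⟩ := s5 a z (by
        obtain ⟨j, h1, h2⟩ := d2 z (haZ z hz)
        exact ⟨j, h1.trans hnL, h1, h2⟩)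
      obtain ⟨y5, y6⟩ := s6 (g3 a b) z (by
        obtain ⟨j, h1, h2⟩ := hF.le hn0 hxz (hXL (hZX hz))
        exact ⟨j, h1.trans hnL, h1, h2⟩)
      obtain ⟨i, hi, hsi, hV⟩ := hCV z hz (max (max (g4 a b) (g5 a z)) (g6 (g3 a b) z))
        ⟨clash_max_mem (clash_max_mem (c4 a haX b hbX) (c5 a haX z (hZX hz)))
          (c6 _ (c3 a haX b hbX) z (hZX hz)), max_lt (max_lt y1 y3) y5⟩
      have hin : i < n := (hC hi).2
      rw [max_le_iff, max_le_iff] at hsi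
      exact ⟨z, hz, i, hi, hV, (y2 i hsi.1.1 hin).trans_le (y6 i hsi.2 hin), y4 i hsi.1.2 hin⟩
    choose! zz hzz ii hii hV h1 h2 using key
    obtain ⟨i, hi, w, -, hfib⟩ := pigeon2 ii (fun b => F (zz b) (ii b)) hu' hZ hCu hVu hii hV
    obtain ⟨b, hbZ, e1, e2⟩ : {b | b ∈ Z ∧ ii b = i ∧ F (zz b) (ii b) = w}.Nonempty := by
      by_contra h
      rw [not_nonempty_iff_eq_empty] at h
      exact hfib (Sz_of_subsingleton (h ▸ subsingleton_empty) hu')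
    obtain ⟨b', ⟨hbZ', e1', e2'⟩, hle⟩ :
        ∃ b' ∈ {b | b ∈ Z ∧ ii b = i ∧ F (zz b) (ii b) = w}, zz b ≤ b' := by
      by_contra h
      push Not at h
      exact hfib ((hZi _ (hzz b hbZ)).mono fun y hy => ⟨hy.1, h y hy⟩)
    have a1 := h2 b hbZ
    have a2 := h1 b' hbZ'
    have a3 := d1 _ _ hle (haZ b' hbZ') i (hC hi).2
    rw [e2, e1] at a1
    rw [e2', e1'] at a2
    exact ((a1.trans a3).trans_lt a2).false
  · have hle : a.cof ≤ l := (cof_le_card a).trans (lt_succ_iff.1 (lt_ord.1 haL))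
    obtain ⟨C', hC', hs, hcf⟩ := hsg' _ hle
    have hs' : Sz C' u := hs.trans_le ((Finset.le_sup hT).trans
      (((le_max_right _ _).trans (le_max_left _ _)).trans hu))
    have key : ∀ j ∈ C', ∃ z ∈ Z, cs a j ≤ z := by
      intro j hj
      have h1 : cs a j < a := hcs2 a j (hC' hj).2
      exact hmin _ (s1 a j ⟨_, h1.trans haL, rfl⟩ ▸ c1 a haX j (hC' hj).1) h1
    choose! zz hzz hle' using key
    refine hZ (clash_cover hu' (hs'.image zz) ?_ fun w hw => ?_)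
    · rintro _ ⟨j, hj, rfl⟩
      exact hZi _ (hzz j hj)
    · obtain ⟨x1, x2⟩ := s2 a w (by
        obtain ⟨j, h1, h2⟩ := hcs3 a w (haZ w hw)
        exact ⟨j, (h1.trans_le (ord_cof_le a)).trans haL, h1, h2⟩)
      obtain ⟨j, hj, hj'⟩ := hcf _ ⟨c2 a haX w (hZX hw), x1⟩
      exact ⟨_, ⟨j, hj, rfl⟩, x2.trans
        (((hcs1 a).monotoneOn x1 (hC' hj).2 hj').trans (hle' j hj))⟩

end Pool.Agent.MP_ef13ad_lc
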