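import Pool.Agent.Lib.MP_ef13ad_lc.Base

open Cardinal Ordinal Set Order

namespace Pool.Agent.MP_ef13ad_lc

/-- Read an ordinal from a finite set. -/
noncomputable def codeDec (a : ℕ) (s : Finset Ordinal.{0}) : Ordinal.{0} :=
  if a = 0 then s.sup id else if a = 1 then sInf {x | x ∈ s ∧ ω ≤ x} else ((a - 2 : ℕ) : Ordinal)

/-- The least natural number in a finite set. -/
noncomputable def codeNat (s : Finset Ordinal.{0}) : ℕ := sInf {n : ℕ | (n : Ordinal.{0}) ∈ s}

open Classical in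
/-- The finite set that codes a natural number and two ordinals. -/
noncomputable def codeSet (c : ℕ) (x y : Ordinal.{0}) : Finset Ordinal.{0} :=
  insert (c : Ordinal.{0}) (({x, y} : Finset Ordinal.{0}).filter fun z => ω ≤ z)

theorem code_mem {c : ℕ} {x y z : Ordinal.{0}} :
    z ∈ codeSet c x y ↔ z = c ∨ ((z = x ∨ z = y) ∧ ω ≤ z) := by
  simp [codeSet]

theorem code_comm (c : ℕ) (x y : Ordinal.{0}) : codeSet c x y = codeSet c y x := by
  ext z
  rw [code_mem, code_mem, or_comm (a := z = x)]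

theorem code_nat_mem {c n : ℕ} {x y : Ordinal.{0}} :
    (n : Ordinal.{0}) ∈ codeSet c x y ↔ n = c := by
  rw [code_mem]
  constructor
  · rintro (h | ⟨-, h⟩)
    · exact_mod_cast h
    · exact absurd (natCast_lt_omega0 n) h.not_gt
  · rintro rfl
    exact Or.inl rfl

theorem code_nat (c : ℕ) (x y : Ordinal.{0}) : codeNat (codeSet c x y) = c := by
  have : {n : ℕ | (n : Ordinal.{0}) ∈ codeSet c x y} = {c} := by
    ext n
    exact code_nat_mem
  rw [codeNat, this, csInf_singleton]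

theorem code_dec (x y : Ordinal.{0}) : ∃ a : ℕ, ∀ c : ℕ, codeDec a (codeSet c x y) = x := by
  rcases lt_or_ge x ω with hx | hx
  · obtain ⟨n, rfl⟩ := lt_omega0.1 hx
    exact ⟨n + 2, fun c => by simp [codeDec]⟩
  · have hm : ∀ c : ℕ, x ∈ codeSet c x y := fun c => code_mem.2 (Or.inr ⟨Or.inl rfl, hx⟩)
    rcases le_total y x with hy | hy
    · refine ⟨0, fun c => ?_⟩
      rw [codeDec, if_pos rfl]
      refine le_antisymm (Finset.sup_le fun z hz => ?_) (Finset.le_sup (f := id) (hm c))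
      rcases code_mem.1 hz with rfl | ⟨rfl | rfl, -⟩
      · exact (natCast_lt_omega0 c).le.trans hx
      · exact le_rfl
      · exact hy
    · refine ⟨1, fun c => ?_⟩
      rw [codeDec, if_neg one_ne_zero, if_pos rfl]
      refine le_antisymm (csInf_le' ⟨hm c, hx⟩) (le_csInf ⟨x, hm c, hx⟩ ?_)
      rintro z ⟨hz, hz'⟩
      rcases code_mem.1 hz with rfl | ⟨rfl | rfl, -⟩
      · exact absurd (natCast_lt_omega0 c) hz'.not_gt
      · exact le_rfl
      · exact hy

theorem code_dec_lt {L : Ordinal.{0}} (hL : ω ≤ L) (a : ℕ) (s : Finset Ordinal.{0})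
    (hs : ∀ x ∈ s, x < L) : codeDec a s < L := by
  have h0 : (0 : Ordinal.{0}) < L := omega0_pos.trans_le hL
  unfold codeDec
  split_ifs
  · exact (Finset.sup_lt_iff h0).2 hs
  · rcases Set.eq_empty_or_nonempty {x | x ∈ s ∧ ω ≤ x} with h | h
    · rw [h, Ordinal.sInf_empty]; exact h0
    · exact hs _ (csInf_mem h).1
  · exact (natCast_lt_omega0 _).trans_le hL

theorem code_closed {l k : Cardinal.{0}} (h : CC l k) (hl : ℵ₀ ≤ l)
    (G : ℕ → Ordinal.{0} → Ordinal.{0} → Ordinal.{0})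
    (hG : ∀ m, ∀ x < (succ l).ord, ∀ y < (succ l).ord, G m x y < (succ l).ord) :
    ∃ X ⊆ Iio (succ l).ord, 0 ∈ X ∧ (∀ m, ∀ x ∈ X, ∀ y ∈ X, G m x y ∈ X) ∧
      Cardinal.mk X = Cardinal.lift.{1} (Order.succ k) ∧
      Cardinal.mk ↥(X ∩ Set.Iio l.ord) = Cardinal.lift.{1} k := by
  classical
  have hL : ω ≤ (succ l).ord := by
    rw [← ord_aleph0]
    exact ord_le_ord.2 (hl.trans (le_succ l))
  let f : Finset Ordinal.{0} → Ordinal.{0} := fun s =>
    if s = ∅ ∨ 0 ∈ s then (s.card : Ordinal.{0}) else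
      G (codeNat s - 1).unpair.1 (codeDec (codeNat s - 1).unpair.2.unpair.1 s)
        (codeDec (codeNat s - 1).unpair.2.unpair.2 s)
  obtain ⟨X, hX, hcl, h1, h2⟩ := h f (by
    intro s hs
    simp only [f]
    split_ifs
    · exact (natCast_lt_omega0 _).trans_le hL
    · exact hG _ _ (code_dec_lt hL _ s hs) _ (code_dec_lt hL _ s hs))
  have hnat : ∀ j : ℕ, (j : Ordinal.{0}) ∈ X := by
    intro j
    induction j using Nat.strong_induction_on with
    | _ j ih =>
      have h3 := hcl ((Finset.range j).image Nat.cast) (by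
        intro x hx
        obtain ⟨i, hi, rfl⟩ := Finset.mem_image.1 hx
        exact ih i (Finset.mem_range.1 hi))
      have h4 : (Finset.range j).image (Nat.cast : ℕ → Ordinal.{0}) = ∅ ∨
          0 ∈ (Finset.range j).image (Nat.cast : ℕ → Ordinal.{0}) := by
        rcases Nat.eq_zero_or_pos j with rfl | hj
        · left; simp
        · right; exact Finset.mem_image.2 ⟨0, Finset.mem_range.2 hj, Nat.cast_zero⟩
      simp only [f] at h3
      rwa [if_pos h4, Finset.card_image_of_injective _ Nat.cast_injective, Finset.card_range] at h3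
  refine ⟨X, hX, by simpa using hnat 0, fun m x hx y hy => ?_, h1, h2⟩
  obtain ⟨a, ha⟩ := code_dec x y
  obtain ⟨b, hb⟩ := code_dec y x
  have h3 := hcl (codeSet (Nat.pair m (Nat.pair a b) + 1) x y) (by
    intro z hz
    rcases code_mem.1 hz with rfl | ⟨rfl | rfl, -⟩
    · exact hnat _
    · exact hx
    · exact hy)
  have h4 : ¬ (codeSet (Nat.pair m (Nat.pair a b) + 1) x y = ∅ ∨
      0 ∈ codeSet (Nat.pair m (Nat.pair a b) + 1) x y) := by
    rintro (h5 | h5)
    · have := (code_nat_mem (c := Nat.pair m (Nat.pair a b) + 1) (x := x) (y := y)).2 rfl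
      rw [h5] at this
      exact absurd this (Finset.notMem_empty _)
    · have : ((0 : ℕ) : Ordinal.{0}) ∈ codeSet (Nat.pair m (Nat.pair a b) + 1) x y := by
        rwa [Nat.cast_zero]
      exact absurd (code_nat_mem.1 this) (by omega)
  simp only [f] at h3
  rw [if_neg h4, code_nat, Nat.add_sub_cancel, Nat.unpair_pair, Nat.unpair_pair] at h3
  simp only at h3
  rwa [ha, code_comm, hb] at h3

theorem CC.closed {l k : Cardinal.{0}} (h : CC l k) (hl : ℵ₀ ≤ l)
    (G : ℕ → Ordinal.{0} → Ordinal.{0} → Ordinal.{0})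
    (hG : ∀ m, ∀ x < (succ l).ord, ∀ y < (succ l).ord, G m x y < (succ l).ord) :
    ∃ X ⊆ Iio (succ l).ord, 0 ∈ X ∧ (∀ m, ∀ x ∈ X, ∀ y ∈ X, G m x y ∈ X) ∧ ¬ Sz X k ∧
      Sz X (succ k) ∧ Sz (X ∩ Iio l.ord) k ∧ ∀ g ∈ X, Sz (X ∩ Iio g) k := by
  classical
  have he : ∀ g : Ordinal.{0}, ∃ e : Ordinal.{0} → Ordinal.{0}, g < (succ l).ord →
      InjOn e (Iio g) ∧ ∀ a ∈ Iio g, e a < l.ord := by
    intro g
    by_cases hg : g < (succ l).ord
    · obtain ⟨e, he⟩ := (Sz_Iio (o := g) (c := l) (lt_succ_iff.1 (lt_ord.1 hg))).exists_injOn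
      exact ⟨e, fun _ => he⟩
    · exact ⟨id, fun h => absurd h hg⟩
  choose e he using he
  have hlL : l.ord < (succ l).ord := ord_lt_ord.2 (lt_succ l)
  have h0 : (0 : Ordinal.{0}) < (succ l).ord := lt_of_le_of_lt bot_le hlL
  obtain ⟨X, hX, hz, hcl, h1, h2⟩ := code_closed h hl
    (fun m g x => Nat.casesOn (motive := fun _ => Ordinal.{0}) m
      (if x < g then e g x else 0) (fun m' => G m' g x)) (by
      intro m g hg x hx
      cases m with
      | zero =>
        change (if x < g then e g x else 0) < _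
        split_ifs with hxg
        · exact ((he g hg).2 x hxg).trans hlL
        · exact h0
      | succ m => exact hG m g hg x hx)
  have h3 : Sz (X ∩ Iio l.ord) k := h2.le
  refine ⟨X, hX, hz, fun m x hx y hy => hcl (m + 1) x hx y hy, ?_, h1.le, h3, fun g hg => ?_⟩
  · unfold Sz
    rw [h1, Cardinal.lift_le]
    exact (lt_succ k).not_ge
  · refine Sz_of_injOn (f := e g) h3 ((he g (hX hg)).1.mono inter_subset_right) ?_
    rintro a ⟨ha, hag⟩
    refine ⟨?_, (he g (hX hg)).2 a hag⟩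
    have h4 : (if a < g then e g a else 0) ∈ X := hcl 0 g hg a ha
    rwa [if_pos (show a < g from hag)] at h4

end Pool.Agent.MP_ef13ad_lc
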