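import Pool.Agent.Lib.MP_ef13ad_lc.Base

open Cardinal Ordinal Set Order

namespace Pool.Agent.MP_ef13ad_lc

theorem cofEub_low {v : Cardinal.{0}} {F : Ordinal.{0} → Ordinal.{0} → Ordinal.{0}}
    {a : Ordinal.{0}} {h : Ordinal.{0} → Ordinal.{0}} (hv : v.IsRegular) (hh : EUB v F a h) :
    AE v.ord (fun i => v < (h i).cof) := by
  choose d _ hd2 hd3 using fun i => exists_cofSeq (h i)
  obtain ⟨x, hx, hA⟩ := hh.2 (fun i => {s | (h i).cof ≤ v ∧ s ∈ d i '' Iio (h i).cof.ord}) (by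
    intro i _
    by_cases hi : (h i).cof ≤ v
    · exact (((Sz_Iio_ord (h i).cof).image (d i)).trans_le hi).mono fun s hs => hs.2
    · exact Sz_of_subsingleton (fun s hs => (hi hs.1).elim) hv.aleph0_le)
  refine (hA.and (hh.1 x hx)).mono fun i _ hi => ?_
  by_contra hc
  obtain ⟨j, hj, hle⟩ := hd3 i _ hi.2
  exact (hi.1 (d i j) ⟨not_lt.1 hc, j, hj, rfl⟩ (hd2 i j hj)).not_ge hle

theorem cofEub_high {v : Cardinal.{0}} {F : Ordinal.{0} → Ordinal.{0} → Ordinal.{0}}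
    {a : Ordinal.{0}} {h : Ordinal.{0} → Ordinal.{0}} (hv : v.IsRegular)
    (hF : Inc v.ord F a) (hh : EUB v F a h) :
    AE v.ord (fun i => (h i).cof ≤ a.cof) := by
  obtain ⟨c, _, hc2, hc3⟩ := exists_cofSeq a
  have hS : ∀ i, Sz {s | s ∈ (fun j => F (c j) i) '' Iio a.cof.ord ∧ s < h i} a.cof :=
    fun i => ((Sz_Iio_ord a.cof).image (fun j => F (c j) i)).mono fun s hs => hs.1
  obtain ⟨x, hx, hA⟩ := hh.2
    (fun i => {sSup {s | s ∈ (fun j => F (c j) i) '' Iio a.cof.ord ∧ s < h i}})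
    (fun i _ => Sz_singleton _ hv.aleph0_le)
  obtain ⟨j, hj, hxj⟩ := hc3 x hx
  refine ((hA.and (hF.le hv.ord_pos hxj (hc2 j hj))).and (hh.1 (c j) (hc2 j hj))).mono
    fun i _ hi => ?_
  by_contra hlt
  have h1 := hi.1.1 _ rfl ((hS i).sSup_lt (not_le.1 hlt) fun s hs => hs.2)
  have h2 : F (c j) i ≤ sSup {s | s ∈ (fun j => F (c j) i) '' Iio a.cof.ord ∧ s < h i} :=
    le_csSup (hS i).bddAbove ⟨⟨j, hj, rfl⟩, hi.2⟩
  exact (h1.trans_le hi.1.2).not_ge h2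

theorem cofEub_mid {v s : Cardinal.{0}} {F : Ordinal.{0} → Ordinal.{0} → Ordinal.{0}}
    {a : Ordinal.{0}} {h : Ordinal.{0} → Ordinal.{0}} (hv : v.IsRegular)
    (hF : Inc v.ord F a) (hh : EUB v F a h) (h1 : v < s) (h2 : s < a.cof) :
    AE v.ord (fun i => (h i).cof ≠ s) := by
  by_cases hs : v < s.ord.cof
  swap
  · refine AE_of_forall hv.ord_pos fun i _ hi => hs ?_
    rw [← hi, Ordinal.cof_ord_cof, hi]
    exact h1
  choose d hd1 hd2 hd3 using fun i => exists_cofSeq (h i)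
  obtain ⟨b, hb, hb'⟩ := (Sz_Iio_ord s).exists_bound_of_forall
    (R := fun z y => AE v.ord (fun i => d i z < h i → d i z < F y i)) h2 (by
      intro z _
      obtain ⟨x, hx, hA⟩ := hh.2 (fun i => {d i z}) (fun i _ => Sz_singleton _ hv.aleph0_le)
      exact ⟨x, hx, hA.mono fun i _ hi => hi _ rfl⟩)
  have hA : Sz {i | i < v.ord ∧ (h i).cof = s ∧ F b i < h i} v :=
    (Sz_Iio_ord v).mono fun i hi => hi.1
  obtain ⟨z, hz, hz'⟩ := hA.exists_bound_of_forall (R := fun i y => F b i ≤ d i y) hs (by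
    intro i hi
    obtain ⟨j, hj, hle⟩ := hd3 i _ hi.2.2
    exact ⟨j, hi.2.1 ▸ hj, hle⟩)
  obtain ⟨y, hy, hy'⟩ := hb' z hz
  refine ((hy'.and (hF.le hv.ord_pos hy.le hb)).and (hh.1 b hb)).mono fun i hi0 hi hc => ?_
  obtain ⟨w, hw, hw'⟩ := hz' i ⟨hi0, hc, hi.2⟩
  have hz2 : z < (h i).cof.ord := by rw [hc]; exact hz
  have h3 : d i w < d i z := hd1 i (hw.trans hz2) hz2 hw
  exact ((hi.1.1 (hd2 i z hz2)).trans_le (hi.1.2.trans hw')).not_ge h3.le

theorem cof_of_eub {v c : Cardinal.{0}} {F : Ordinal.{0} → Ordinal.{0} → Ordinal.{0}}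
    {a : Ordinal.{0}} {h : Ordinal.{0} → Ordinal.{0}} {T : Set Ordinal.{0}} (hv : v.IsRegular)
    (ha : v < a.cof) (hF : Inc v.ord F a) (hh : EUB v F a h) (hc : c < v) (hT : Sz T c)
    (hT' : ∀ s : Cardinal.{0}, v < s → s < a.cof → s.ord ∈ T) :
    AE v.ord (fun i => (h i).cof = a.cof) := by
  have _ := ha
  have hB := AE_ball (n := v.ord)
    (R := fun t i => v < t.card → t.card < a.cof → (h i).cof ≠ t.card) hT
    (by rw [hv.cof_ord]; exact hc) (by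
      intro t _
      by_cases h1 : v < t.card
      · by_cases h2 : t.card < a.cof
        · exact (cofEub_mid hv hF hh h1 h2).mono fun i _ hi _ _ => hi
        · exact AE_of_forall hv.ord_pos fun i _ _ h3 => (h2 h3).elim
      · exact AE_of_forall hv.ord_pos fun i _ h3 => (h1 h3).elim)
  refine ((hB.and (cofEub_low hv hh)).and (cofEub_high hv hF hh)).mono fun i _ hi => ?_
  by_contra hne
  have h2 : (h i).cof < a.cof := lt_of_le_of_ne hi.2 hne
  have h3 := hi.1.1 _ (hT' _ hi.1.2 h2)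
  rw [card_ord] at h3
  exact h3 hi.1.2 h2 rfl

end Pool.Agent.MP_ef13ad_lc
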