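import Mathlib

namespace Pool.Agent.MP_ef13ad_lc

/-- Chang's Conjecture `(l⁺, l) ↠ (k⁺, k)` in the closed-under-`f` form: for every `f` from the
finite subsets of `l⁺` to `l⁺` there is `X ⊆ l⁺` closed under `f` with `|X| = k⁺` and
`|X ∩ l| = k`. -/
def CC (l k : Cardinal.{0}) : Prop :=
  ∀ f : Finset Ordinal.{0} → Ordinal.{0},
    (∀ s : Finset Ordinal.{0}, (∀ x ∈ s, x < (Order.succ l).ord) → f s < (Order.succ l).ord) →
    ∃ X : Set Ordinal.{0}, X ⊆ Set.Iio (Order.succ l).ord ∧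
      (∀ s : Finset Ordinal.{0}, (∀ x ∈ s, x ∈ X) → f s ∈ X) ∧
      Cardinal.mk X = Cardinal.lift.{1} (Order.succ k) ∧
      Cardinal.mk ↥(X ∩ Set.Iio l.ord) = Cardinal.lift.{1} k

/-- The set `A` of ordinals has at most `c` elements. -/
def Sz (A : Set Ordinal.{0}) (c : Cardinal.{0}) : Prop :=
  Cardinal.mk A ≤ Cardinal.lift.{1} c

/-- `P i` holds for all `i` in a final segment of `n`. -/
def AE (n : Ordinal.{0}) (P : Ordinal.{0} → Prop) : Prop :=
  ∃ j < n, ∀ i, j ≤ i → i < n → P i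

/-- `F` is strictly increasing modulo bounded subsets of `n`, below `L`. -/
def Inc (n : Ordinal.{0}) (F : Ordinal.{0} → Ordinal.{0} → Ordinal.{0}) (L : Ordinal.{0}) : Prop :=
  ∀ b b', b < b' → b' < L → AE n (fun i => F b i < F b' i)

/-- `a` is a good point: a pointwise monotone sequence is interleaved with `F` below `a`. -/
def Good (n : Ordinal.{0}) (F : Ordinal.{0} → Ordinal.{0} → Ordinal.{0}) (a : Ordinal.{0}) : Prop :=
  ∃ d : Ordinal.{0} → Ordinal.{0} → Ordinal.{0},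
    (∀ b b', b ≤ b' → b' < a → ∀ i < n, d b i ≤ d b' i) ∧
    (∀ b < a, AE n (fun i => F b i ≤ d b i)) ∧
    ∀ b < a, ∃ b' < a, AE n (fun i => d b i < F b' i)

/-- At every point `e < a` of cofinality `t`, `F e` dominates pointwise the `F`-values at the
suprema of the initial segments of some cofinal sequence. -/
def Star (n : Ordinal.{0}) (F : Ordinal.{0} → Ordinal.{0} → Ordinal.{0}) (t : Cardinal.{0})
    (a : Ordinal.{0}) : Prop :=
  ∀ e < a, e.cof = t → ∃ c : Ordinal.{0} → Ordinal.{0},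
    (∀ j < t.ord, c j < e) ∧ (∀ b < e, ∃ j < t.ord, b ≤ c j) ∧
    ∀ g < t.ord, ∀ i < n, F (sSup (c '' Set.Iio g)) i < F e i

/-- A club guessing family on `t` whose members have more than `v` elements. -/
def Guess (v t : Cardinal.{0}) (C : Ordinal.{0} → Set Ordinal.{0}) : Prop :=
  ∀ p : Ordinal.{0} → Ordinal.{0}, (∀ j < t.ord, p j < t.ord) →
    ∃ k < t.ord, C k ⊆ Set.Iio t.ord ∧ ¬ Sz (C k) v ∧ ∀ g ∈ C k, ∀ j < g, p j < g

/-- Bounding projections below `a` for sets of size at most `v`. -/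
def BP (v : Cardinal.{0}) (F : Ordinal.{0} → Ordinal.{0} → Ordinal.{0}) (a : Ordinal.{0}) : Prop :=
  ∀ S : Ordinal.{0} → Set Ordinal.{0}, (∀ i < v.ord, Sz (S i) v) →
    (∀ b < a, ∀ i < v.ord, ∃ s ∈ S i, F b i ≤ s) →
    ∃ x < a, ∀ b < a, AE v.ord (fun i => F b i ≤ sInf {s | s ∈ S i ∧ F x i ≤ s})

/-- `h` is an exact upper bound of `F` below `a`, for sets of size at most `v`. -/
def EUB (v : Cardinal.{0}) (F : Ordinal.{0} → Ordinal.{0} → Ordinal.{0}) (a : Ordinal.{0})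
    (h : Ordinal.{0} → Ordinal.{0}) : Prop :=
  (∀ b < a, AE v.ord (fun i => F b i < h i)) ∧
  ∀ S : Ordinal.{0} → Set Ordinal.{0}, (∀ i < v.ord, Sz (S i) v) →
    ∃ x < a, AE v.ord (fun i => ∀ s ∈ S i, s < h i → s < F x i)

/-- `K` is an increasing union of countably many sets, each of size below `k`. -/
def Filt (K : Set Ordinal.{0}) (k : Cardinal.{0}) : Prop :=
  ∃ B : ℕ → Set Ordinal.{0}, Monotone B ∧ (∀ x ∈ K, ∃ m, x ∈ B m) ∧ ∀ m, ∃ c < k, Sz (B m) c

end Pool.Agent.MP_ef13ad_lc
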