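import Pool.Agent.Lib.MP_ef13ad_lc.Base

open Cardinal Ordinal Set Order

namespace Pool.Agent.MP_ef13ad_lc

theorem eub_insert {A : Set Ordinal.{0}} {c : Cardinal.{0}} (h : Sz A c) (hc : ℵ₀ ≤ c)
    (x : Ordinal.{0}) : Sz (insert x A) c :=
  ((Sz_singleton x hc).union h hc).mono fun _ hy => hy

/-- a least upper bound modulo bounded sets -/
theorem eub_lub {v : Cardinal.{0}} {F : Ordinal.{0} → Ordinal.{0} → Ordinal.{0}}
    {a top : Ordinal.{0}} (hv : ℵ₀ ≤ v) (ha : succ v < a.cof) (hF : Inc v.ord F a)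
    (htop : ∀ b < a, ∀ i < v.ord, F b i ≤ top) (hBP : BP v F a) :
    ∃ h : Ordinal.{0} → Ordinal.{0}, (∀ b < a, AE v.ord (fun i => F b i ≤ h i)) ∧
      ∀ p : Ordinal.{0} → Ordinal.{0}, (∀ b < a, AE v.ord (fun i => F b i ≤ p i)) →
        AE v.ord (fun i => h i ≤ p i) := by
  by_contra hc
  have dn : ∀ h : Ordinal.{0} → Ordinal.{0}, (∀ b < a, AE v.ord (fun i => F b i ≤ h i)) →
      ∃ p : Ordinal.{0} → Ordinal.{0}, (∀ b < a, AE v.ord (fun i => F b i ≤ p i)) ∧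
        ¬ AE v.ord (fun i => h i ≤ p i) := by
    intro h hh
    by_contra h1
    refine hc ⟨h, hh, fun p hp => ?_⟩
    by_contra h2
    exact h1 ⟨p, hp, h2⟩
  have hreg : (succ v).IsRegular := isRegular_succ hv
  have hn : 0 < v.ord := (isSuccLimit_ord hv).bot_lt
  let SS : (Ordinal.{0} → Ordinal.{0} → Ordinal.{0}) → Ordinal.{0} → Ordinal.{0} →
      Set Ordinal.{0} := fun p z i => insert top ((fun z' => p z' i) '' Iio z)
  obtain ⟨p, hp⟩ := exists_rec (β := Ordinal.{0} → Ordinal.{0})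
    (fun z p b => z < (succ v).ord → ∃ x < a, (∀ b' < a, AE v.ord (fun i => F b' i ≤ b i)) ∧
      ¬ AE v.ord (fun i => sInf {s | s ∈ SS p z i ∧ F x i ≤ s} ≤ b i))
    (by
      intro j x y b hxy h hj
      have h1 : SS y j = SS x j := by
        funext i
        simp only [SS]
        congr 1
        exact image_congr fun l hl => by rw [hxy l hl]
      rw [h1]
      exact h hj)
    (by
      intro z p
      by_cases hz : z < (succ v).ord
      · have hcard : z.card ≤ v := le_of_lt_succ (lt_ord.1 hz)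
        obtain ⟨x, hx, hx'⟩ := hBP (SS p z)
          (fun i _ => eub_insert ((Sz_Iio hcard).image _) hv top)
          (fun b hb i hi => ⟨top, mem_insert _ _, htop b hb i hi⟩)
        obtain ⟨q, hq, hq'⟩ := dn _ hx'
        exact ⟨q, fun _ => ⟨x, hx, hq, hq'⟩⟩
      · exact ⟨fun _ => 0, fun h => absurd h hz⟩)
  obtain ⟨x, hx, hx'⟩ := (Sz_Iio_ord (succ v)).exists_bound_of_forall ha fun z hz => hp z hz
  let H : Ordinal.{0} → Ordinal.{0} → Ordinal.{0} :=
    fun z i => sInf {s | s ∈ SS p z i ∧ F x i ≤ s}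
  have hmin : ∀ i ∈ Iio v.ord, ∃ y < (succ v).ord, ∀ z < (succ v).ord, H y i ≤ H z i := by
    intro i _
    have hne : ((fun z => H z i) '' Iio (succ v).ord).Nonempty :=
      ⟨_, 0, (isSuccLimit_ord hreg.aleph0_le).bot_lt, rfl⟩
    obtain ⟨y, hy, hy'⟩ := csInf_mem hne
    refine ⟨y, hy, fun z hz => ?_⟩
    have h1 : H y i = sInf ((fun z => H z i) '' Iio (succ v).ord) := hy'
    rw [h1]
    exact csInf_le' ⟨z, hz, rfl⟩
  obtain ⟨z, hz, hz'⟩ := (Sz_Iio_ord v).exists_bound_of_forall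
    (by rw [hreg.cof_ord]; exact lt_succ v) hmin
  have hz1 : succ z < (succ v).ord := (isSuccLimit_ord hreg.aleph0_le).succ_lt hz
  obtain ⟨y, hy, hub, hnot⟩ := hx' z hz
  refine hnot (((hF.le hn hy.le hx).and (hub x hx)).mono fun i hi h => ?_)
  obtain ⟨w, hw, hw'⟩ := hz' i hi
  have ne : ∀ u, ({s | s ∈ SS p u i ∧ F x i ≤ s} : Set Ordinal.{0}).Nonempty := fun u =>
    ⟨top, mem_insert _ _, htop x hx i hi⟩
  have e1 : sInf {s | s ∈ SS p z i ∧ F y i ≤ s} ≤ H z i :=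
    csInf_le_csInf' (ne z) fun s hs => ⟨hs.1, h.1.trans hs.2⟩
  have e2 : H z i ≤ H w i :=
    csInf_le_csInf' (ne w) fun s hs =>
      ⟨insert_subset_insert (image_mono (Iio_subset_Iio hw.le)) hs.1, hs.2⟩
  have e3 : H (succ z) i ≤ p z i :=
    csInf_le' ⟨mem_insert_of_mem _ ⟨z, lt_succ z, rfl⟩, h.2⟩
  exact e1.trans (e2.trans ((hw' _ hz1).trans e3))

theorem exists_eub {v : Cardinal.{0}} {F : Ordinal.{0} → Ordinal.{0} → Ordinal.{0}}
    {a top : Ordinal.{0}} (hv : ℵ₀ ≤ v) (ha : succ v < a.cof) (hF : Inc v.ord F a)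
    (htop : ∀ b < a, ∀ i < v.ord, F b i ≤ top) (hBP : BP v F a) : ∃ h, EUB v F a h := by
  obtain ⟨h, h1, h2⟩ := eub_lub hv ha hF htop hBP
  have hlim : IsSuccLimit a := Ordinal.one_lt_cof_iff.1
    (one_lt_aleph0.trans_le (hv.trans ((lt_succ v).trans ha).le))
  refine ⟨h, fun b hb => ?_, fun S hS => ?_⟩
  · have hb' := hlim.succ_lt hb
    exact ((hF b (succ b) (lt_succ b) hb').and (h1 _ hb')).mono fun i _ h => h.1.trans_le h.2
  · obtain ⟨x, hx, hx'⟩ := hBP (fun i => insert top (S i))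
      (fun i hi => eub_insert (hS i hi) hv top)
      (fun b hb i hi => ⟨top, mem_insert _ _, htop b hb i hi⟩)
    refine ⟨x, hx, (h2 _ hx').mono fun i _ h3 s hs hlt => ?_⟩
    by_contra h4
    have h5 : sInf {s | s ∈ insert top (S i) ∧ F x i ≤ s} ≤ s :=
      csInf_le' ⟨mem_insert_of_mem _ hs, not_lt.1 h4⟩
    exact (h3.trans h5).not_gt hlt

end Pool.Agent.MP_ef13ad_lc
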