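import Pool.Agent.Lib.MP_ef13ad_lc.Base

open Cardinal Ordinal Set Order

namespace Pool.Agent.MP_ef13ad_lc

theorem global_sing {o : Ordinal.{0}} (ho : IsSuccLimit o) (hc : o.cof = ℵ₀) :
    ℵ₀ < ℵ_ o ∧ (ℵ_ o).ord.cof = ℵ₀ ∧ (ℵ_ o).IsSingular := by
  have h1 : ℵ₀ < ℵ_ o := by
    rw [← aleph_zero, aleph_lt_aleph]
    exact ho.bot_lt
  exact ⟨h1, by rw [ord_aleph, cof_omega ho, hc], isSingular_aleph_iff.2 ⟨ho, hc ▸ h1⟩⟩

theorem global_of_local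
    (H : ∀ v k : Cardinal.{0}, v.IsRegular → v < ℵ_ v.ord → ℵ₀ < k → k.ord.cof = ℵ₀ →
      CC (ℵ_ v.ord) k → ∃ u0 < k, ∀ u, u0 ≤ u → u < k → ¬ CC k u) :
    ¬ ∀ k l : Cardinal.{0}, k.IsSingular → l.IsSingular → k < l →
      (k < l.ord.cof ∨ k.ord.cof = l.ord.cof) → CC l k := by
  intro h
  have hw : IsSuccLimit (ω : Ordinal.{0}) := isSuccLimit_omega0
  have hww : IsSuccLimit (ω * ω : Ordinal.{0}) := isSuccLimit_mul_right omega0_pos hw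
  obtain ⟨k0, k1, k2⟩ := global_sing hww (by
    rw [cof_mul omega0_ne_zero hw.isSuccPrelimit, cof_omega0])
  have hv : (succ (ℵ_ (ω * ω : Ordinal.{0}))).IsRegular := isRegular_succ k0.le
  have hlim : IsSuccLimit (succ (ℵ_ (ω * ω : Ordinal.{0}))).ord := isSuccLimit_ord hv.aleph0_le
  have hlt : succ (ℵ_ (ω * ω : Ordinal.{0})) < ℵ_ (succ (ℵ_ (ω * ω : Ordinal.{0}))).ord := by
    conv_lhs => rw [succ_aleph]
    rw [aleph_lt_aleph]
    refine hlim.add_one_lt (lt_ord.2 ?_)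
    rw [card_mul, card_omega0, aleph0_mul_aleph0]
    exact k0.trans (lt_succ _)
  have hcof : (ℵ_ (succ (ℵ_ (ω * ω : Ordinal.{0}))).ord).ord.cof =
      succ (ℵ_ (ω * ω : Ordinal.{0})) := by
    rw [ord_aleph, cof_omega hlim, hv.cof_ord]
  obtain ⟨u0, hu0, hu⟩ := H _ _ hv hlt k0 k1 (h _ _ k2
    (isSingular_aleph_iff.2 ⟨hlim, by rw [hv.cof_ord]; exact hlt⟩) ((lt_succ _).trans hlt)
    (Or.inl (by rw [hcof]; exact lt_succ _)))
  obtain ⟨b, hb, hb'⟩ := (isNormal_aleph.lt_iff_exists_lt hww).1 hu0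
  obtain ⟨c, hc, hc'⟩ := (lt_mul_iff_of_isSuccLimit hw).1 hb
  have h1 : ω * c + ω < ω * ω := by
    rw [← mul_add_one]
    exact mul_lt_mul_of_pos_left (hw.add_one_lt hc) omega0_pos
  obtain ⟨-, u1, u2⟩ := global_sing (isSuccLimit_add (ω * c) hw) (by
    rw [cof_add _ omega0_ne_zero, cof_omega0])
  have h2 : ℵ_ (ω * c + ω) < ℵ_ (ω * ω : Ordinal.{0}) := aleph_lt_aleph.2 h1
  refine hu _ (hb'.le.trans (aleph_le_aleph.2 (hc'.le.trans le_self_add))) h2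
    (h _ _ u2 k2 h2 (Or.inr (u1.trans k1.symm)))

end Pool.Agent.MP_ef13ad_lc
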