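import Pool.Agent.Lib.MP_ef13ad_lc.Base

open Cardinal Ordinal Set Order

namespace Pool.Agent.MP_ef13ad_lc

theorem good_of_eub {v : Cardinal.{0}} {F : Ordinal.{0} → Ordinal.{0} → Ordinal.{0}}
    {a : Ordinal.{0}} {h : Ordinal.{0} → Ordinal.{0}} (hv : ℵ₀ ≤ v)
    (ha : v < a.cof) (hF : Inc v.ord F a) (hh : EUB v F a h)
    (hc : AE v.ord (fun i => (h i).cof = a.cof)) : Good v.ord F a := by
  classical
  choose c c1 c2 c3 using exists_cofSeq
  have hn : 0 < v.ord := by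
    rw [← Cardinal.ord_zero, Cardinal.ord_lt_ord]
    exact aleph0_pos.trans_le hv
  have h0 : 0 < a.cof.ord := hn.trans (Cardinal.ord_lt_ord.2 ha)
  obtain ⟨D, hD⟩ : ∃ D : Ordinal.{0} → Ordinal.{0} → Ordinal.{0},
      ∀ i z, D i z = if (h i).cof = a.cof then c (h i) z else 0 := ⟨_, fun _ _ => rfl⟩
  have mono : ∀ i z z', z ≤ z' → z' < a.cof.ord → D i z ≤ D i z' := by
    intro i z z' h1 h2
    rw [hD, hD]
    split_ifs with e
    · rw [← e] at h2
      exact (c1 (h i)).monotoneOn (h1.trans_lt h2) h2 h1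
    · exact le_rfl
  have step : ∀ b < a, ∃ z, z < a.cof.ord ∧ AE v.ord (fun i => F b i ≤ D i z) := by
    intro b hb
    obtain ⟨z, hz, hz'⟩ := (Sz_Iio_ord v).exists_bound_of_forall (o := a.cof.ord)
      (R := fun i y => F b i < h i ∧ (h i).cof = a.cof → F b i ≤ D i y)
      (by rw [Ordinal.cof_ord_cof]; exact ha) (by
        intro i _
        by_cases e : F b i < h i ∧ (h i).cof = a.cof
        · obtain ⟨j, hj, hj'⟩ := c3 (h i) _ e.1
          exact ⟨j, e.2 ▸ hj, fun _ => by rw [hD, if_pos e.2]; exact hj'⟩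
        · exact ⟨0, h0, fun e' => absurd e' e⟩)
    refine ⟨z, hz, ((hh.1 b hb).and hc).mono fun i hi e => ?_⟩
    obtain ⟨y, hy, hy'⟩ := hz' i hi
    exact (hy' e).trans (mono i y z hy.le hz)
  have mem : ∀ b < a, sInf {z | z < a.cof.ord ∧ AE v.ord (fun i => F b i ≤ D i z)} ∈
      {z | z < a.cof.ord ∧ AE v.ord (fun i => F b i ≤ D i z)} := fun b hb => csInf_mem (step b hb)
  refine ⟨fun b i => D i (sInf {z | z < a.cof.ord ∧ AE v.ord (fun i => F b i ≤ D i z)}), ?_,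
    fun b hb => (mem b hb).2, fun b hb => ?_⟩
  · intro b b' h1 h2 i _
    refine mono i _ _ (csInf_le' ⟨(mem b' h2).1, ?_⟩) (mem b' h2).1
    exact ((hF.le hn h1 h2).and (mem b' h2).2).mono fun _ _ e => e.1.trans e.2
  · obtain ⟨x, hx, hx'⟩ := hh.2
      (fun i => {D i (sInf {z | z < a.cof.ord ∧ AE v.ord (fun i => F b i ≤ D i z)})})
      (fun _ _ => Sz_singleton _ hv)
    refine ⟨x, hx, (hx'.and hc).mono fun i _ e => e.1 _ rfl ?_⟩
    beta_reduce
    rw [hD, if_pos e.2]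
    exact c2 (h i) _ (e.2 ▸ (mem b hb).1)

theorem good_of_small {v : Cardinal.{0}} {F : Ordinal.{0} → Ordinal.{0} → Ordinal.{0}}
    {a : Ordinal.{0}} (hv : v.IsRegular) (h1 : 1 < a.cof) (ha : a.cof < v)
    (hF : Inc v.ord F a) : Good v.ord F a := by
  obtain ⟨c, c1, c2, c3⟩ := exists_cofSeq a
  have hn : 0 < v.ord := hv.ord_pos
  have hlim : IsSuccLimit a := one_lt_cof_iff.1 h1
  have mem : ∀ b < a, sInf {j | j < a.cof.ord ∧ b ≤ c j} ∈ {j | j < a.cof.ord ∧ b ≤ c j} :=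
    fun b hb => csInf_mem (c3 b hb)
  obtain ⟨r, hr⟩ : ∃ r : Ordinal.{0} → Ordinal.{0},
      ∀ b, r b = sInf {j | j < a.cof.ord ∧ b ≤ c j} := ⟨_, fun _ => rfl⟩
  have r1 : ∀ b < a, r b < a.cof.ord := fun b hb => by rw [hr]; exact (mem b hb).1
  have r2 : ∀ b < a, b ≤ c (r b) := fun b hb => by rw [hr]; exact (mem b hb).2
  refine ⟨fun b i => sSup ((fun j => F (c j) i) '' Iio (r b + 1)), ?_, fun b hb => ?_,
    fun b hb => ?_⟩
  · intro b b' h2 h3 i _
    have h4 : r b ≤ r b' := by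
      rw [hr b]
      exact csInf_le' ⟨r1 b' h3, h2.trans (r2 b' h3)⟩
    exact csSup_le_csSup' (bdd_image _ _)
      (image_mono (Iio_subset_Iio (add_le_add h4 le_rfl)))
  · exact (hF.le hn (r2 b hb) (c2 _ (r1 b hb))).mono fun i _ e =>
      e.trans (le_sSup_image (fun j => F (c j) i) (lt_add_one _))
  · have h2 : c (r b) + 1 < a := hlim.add_one_lt (c2 _ (r1 b hb))
    have h3 : c (r b) + 1 + 1 < a := hlim.add_one_lt h2
    have h4 : AE v.ord (fun i => ∀ j ∈ Iio (r b + 1), F (c j) i < F (c (r b) + 1) i) := by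
      refine AE_ball (c := a.cof) ((Sz_Iio_ord _).mono (Iio_subset_Iio ?_))
        (by rw [hv.cof_ord]; exact ha) fun j hj => hF _ _ ?_ h2
      · exact add_one_le_of_lt (r1 b hb)
      · have h5 : j ≤ r b := le_of_lt_add_one hj
        exact ((c1.monotoneOn (h5.trans_lt (r1 b hb)) (r1 b hb) h5).trans_lt (lt_add_one _))
    refine ⟨_, h3, (h4.and (hF _ _ (lt_add_one _) h3)).mono fun i _ e => lt_of_le_of_lt ?_ e.2⟩
    refine csSup_le' ?_
    rintro _ ⟨j, hj, rfl⟩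
    exact (e.1 j hj).le

end Pool.Agent.MP_ef13ad_lc
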