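import Pool.Agent.Lib.MP_ef13ad_lc.Base

open Cardinal Ordinal Set Order

namespace Pool.Agent.MP_ef13ad_lc

/-- `F s` bounds pointwise the values at the suprema indexed by `C k` up to `j`. -/
def ProjBd (n : Ordinal.{0}) (F : Ordinal.{0} → Ordinal.{0} → Ordinal.{0}) (Ck : Set Ordinal.{0})
    (x : Ordinal.{0} → Ordinal.{0}) (j s : Ordinal.{0}) : Prop :=
  ∀ l ∈ Ck, l ≤ j → ∀ i < n, F (sSup (x '' Iio l)) i ≤ F s i

theorem ProjBd_congr {n : Ordinal.{0}} {F : Ordinal.{0} → Ordinal.{0} → Ordinal.{0}}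
    {Ck : Set Ordinal.{0}} {x y : Ordinal.{0} → Ordinal.{0}} {j : Ordinal.{0}}
    (h : ∀ l < j, x l = y l) : ProjBd n F Ck x j = ProjBd n F Ck y j := by
  funext s
  have key : ∀ l ≤ j, x '' Iio l = y '' Iio l := fun l hl =>
    image_congr fun z hz => h z (lt_of_lt_of_le hz hl)
  apply propext
  constructor
  · intro H l hl hlj
    rw [← key l hlj]
    exact H l hl hlj
  · intro H l hl hlj
    rw [key l hlj]
    exact H l hl hlj

theorem proj_seq {v t : Cardinal.{0}} {C : Ordinal.{0} → Set Ordinal.{0}}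
    {F pr : Ordinal.{0} → Ordinal.{0} → Ordinal.{0}} {a : Ordinal.{0}} (hv : ℵ₀ ≤ v)
    (ht : t.IsRegular) (ha : t < a.cof) (hF : Inc v.ord F a)
    (hcon : ∀ x < a, ∃ b < a, ¬ AE v.ord (fun i => F b i ≤ pr x i)) :
    ∃ x : Ordinal.{0} → Ordinal.{0}, ∀ j < t.ord, x j < a ∧ sSup (x '' Iio j) < x j ∧
      ∃ w < a, (∀ k < t.ord, (∃ s < a, ProjBd v.ord F (C k) x j s) →
        ∃ s < w, ProjBd v.ord F (C k) x j s) ∧ ¬ AE v.ord (fun i => F (x j) i ≤ pr w i) := by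
  have hn : 0 < v.ord := (isSuccLimit_ord hv).pos
  have hlim : IsSuccLimit a :=
    one_lt_cof_iff.1 ((one_lt_aleph0.trans_le ht.aleph0_le).trans ha)
  obtain ⟨x, hx⟩ := exists_rec (β := Ordinal.{0})
    (fun j x b => j < t.ord → (∀ l < j, x l < a) → b < a ∧ sSup (x '' Iio j) < b ∧
      ∃ w < a, (∀ k < t.ord, (∃ s < a, ProjBd v.ord F (C k) x j s) →
        ∃ s < w, ProjBd v.ord F (C k) x j s) ∧ ¬ AE v.ord (fun i => F b i ≤ pr w i))
    (by
      intro j x y b hxy H hj hy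
      have h1 : x '' Iio j = y '' Iio j := image_congr fun z hz => hxy z hz
      have h2 : ∀ k, ProjBd v.ord F (C k) x j = ProjBd v.ord F (C k) y j :=
        fun k => ProjBd_congr hxy
      have := H hj (fun l hl => (hxy l hl).symm ▸ hy l hl)
      simpa only [h1, h2] using this)
    (by
      intro j x
      by_cases hj : j < t.ord ∧ ∀ l < j, x l < a
      swap
      · exact ⟨0, fun h1 h2 => absurd ⟨h1, h2⟩ hj⟩
      have hy : sSup (x '' Iio j) < a := sSup_image_lt ((lt_ord.1 hj.1).trans ha) hj.2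
      obtain ⟨w, hw, hw'⟩ := (Sz_Iio_ord t).exists_bound_of_forall
        (R := fun k s => (∃ s < a, ProjBd v.ord F (C k) x j s) → ProjBd v.ord F (C k) x j s) ha
        (by
          intro k _
          by_cases h : ∃ s < a, ProjBd v.ord F (C k) x j s
          · obtain ⟨s, hs, hs'⟩ := h
            exact ⟨s, hs, fun _ => hs'⟩
          · exact ⟨0, hlim.pos, fun h' => absurd h' h⟩)
      obtain ⟨b, hb, hb'⟩ := hcon w hw
      have hlt : max (sSup (x '' Iio j)) b + 1 < a := hlim.add_one_lt (max_lt hy hb)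
      refine ⟨max (sSup (x '' Iio j)) b + 1, fun _ _ => ⟨hlt,
        (le_max_left _ _).trans_lt (lt_add_one _), w, hw, fun k hk h => ?_, fun h => hb' ?_⟩⟩
      · obtain ⟨s, hs, hs'⟩ := hw' k hk
        exact ⟨s, hs, hs' h⟩
      · have h1 := hF b _ ((le_max_right (sSup (x '' Iio j)) b).trans_lt (lt_add_one _)) hlt
        exact (h1.and h).mono fun i _ hi => hi.1.le.trans hi.2)
  have hlt : ∀ j, j < t.ord → x j < a := by
    intro j
    induction j using WellFoundedLT.induction with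
    | ind j ih => exact fun hj => (hx j hj fun l hl => ih l hl (hl.trans hj)).1
  exact ⟨x, fun j hj => hx j hj fun l hl => hlt l (hl.trans hj)⟩

theorem bp_of_guess {v t : Cardinal.{0}} {C : Ordinal.{0} → Set Ordinal.{0}}
    {F : Ordinal.{0} → Ordinal.{0} → Ordinal.{0}} {a : Ordinal.{0}} (hv : ℵ₀ ≤ v)
    (ht : t.IsRegular) (hC : Guess v t C) (ha : t < a.cof) (hF : Inc v.ord F a)
    (hS : Star v.ord F t a) : BP v F a := by
  intro S hSz htop
  by_contra hcon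
  push Not at hcon
  have hn : 0 < v.ord := (isSuccLimit_ord hv).pos
  have htl : IsSuccLimit t.ord := isSuccLimit_ord ht.aleph0_le
  obtain ⟨x, hx⟩ := proj_seq (C := C) (pr := fun x i => sInf {s | s ∈ S i ∧ F x i ≤ s})
    hv ht ha hF hcon
  have hmono : StrictMonoOn x (Iio t.ord) := fun l _ j hj hlj =>
    (le_sSup_image x hlj).trans_lt (hx j hj).2.1
  have he : sSup (x '' Iio t.ord) < a :=
    sSup_image_lt (by simpa using ha) fun j hj => (hx j hj).1
  obtain ⟨c, hc1, hc2, hc3⟩ := hS _ he (cof_sSup_image ht hmono)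
  have hp : ∀ j < t.ord, ∃ q < t.ord, (∃ j1 ≤ q, x j ≤ c j1) ∧ ∃ j2 ≤ q, c j ≤ x j2 := by
    intro j hj
    have hj1 : j + 1 < t.ord := htl.add_one_lt hj
    obtain ⟨j1, h1, h1'⟩ := hc2 (x j)
      ((hmono hj hj1 (lt_add_one j)).trans_le (le_sSup_image x hj1))
    obtain ⟨j2, h2, h2'⟩ := lt_sSup_image (hc1 j hj)
    exact ⟨max j1 j2, max_lt h1 h2, ⟨j1, le_max_left _ _, h1'⟩, j2, le_max_right _ _, h2'.le⟩
  choose! p hp hp1 hp2 using hp
  obtain ⟨k, hk, hCk, hnot, hcl⟩ := hC p hp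
  have hbd : ∀ j, ProjBd v.ord F (C k) x j (sSup (x '' Iio t.ord)) := by
    intro j l hl _ i hi
    have hl' : l < t.ord := hCk hl
    have : sSup (x '' Iio l) = sSup (c '' Iio l) := by
      refine sSup_image_eq_of_interleave (fun j hj => ?_) (fun j hj => ?_)
      · obtain ⟨j1, h1, h2⟩ := hp1 j (hj.trans hl')
        exact ⟨j1, h1.trans_lt (hcl l hl j hj), h2⟩
      · obtain ⟨j1, h1, h2⟩ := hp2 j (hj.trans hl')
        exact ⟨j1, h1.trans_lt (hcl l hl j hj), h2⟩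
    rw [this]
    exact (hc3 l hl' i hi).le
  have key : ∀ l ∈ C k, ∃ i < v.ord, ∃ s ∈ S i,
      (∀ m ∈ C k, l < m → (∀ m' ∈ C k, l < m' → m ≤ m') → s < F (sSup (x '' Iio m)) i) ∧
      ∀ m ∈ C k, m ≤ l → F (sSup (x '' Iio m)) i < s := by
    intro l hl
    obtain ⟨-, -, w, hw, hw1, hw2⟩ := hx l (hCk hl)
    obtain ⟨s, hs, hs'⟩ := hw1 k hk ⟨_, he, hbd l⟩
    have h1 := hF s w hs hw
    have h2 : AE v.ord (fun i => ∀ m ∈ C k, l < m → (∀ m' ∈ C k, l < m' → m ≤ m') →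
        F (x l) i ≤ F (sSup (x '' Iio m)) i) := by
      by_cases h : ∃ m ∈ C k, l < m ∧ ∀ m' ∈ C k, l < m' → m ≤ m'
      · obtain ⟨m, hm, hlm, hm'⟩ := h
        have hm1 := hx m (hCk hm)
        refine (hF.le hn (le_sSup_image x hlm) (hm1.2.1.trans hm1.1)).mono ?_
        intro i _ hi m2 hm2 hl2 hmin
        rwa [le_antisymm (hmin m hm hlm) (hm' m2 hm2 hl2)]
      · exact AE_of_forall hn fun i _ m hm hlm hmin => absurd ⟨m, hm, hlm, hmin⟩ h
    obtain ⟨i, hi, ⟨h3, h4⟩, h5⟩ := (h1.and h2).exists_not hw2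
    have hmem : sInf {s | s ∈ S i ∧ F w i ≤ s} ∈ {s | s ∈ S i ∧ F w i ≤ s} :=
      csInf_mem (htop w hw i hi)
    refine ⟨i, hi, _, hmem.1, fun m hm hlm hmin => (not_le.1 h5).trans_le (h4 m hm hlm hmin),
      fun m hm hml => ((hs' m hm hml i hi).trans_lt h3).trans_le hmem.2⟩
  choose! ii hii ss hss h1 h2 using key
  obtain ⟨u, -, s, -, hfib⟩ := pigeon2 ii ss hv hnot (Sz_Iio_ord v)
    ((Sz_Iio_ord v).biUnion hSz hv) hii (fun l hl => mem_biUnion (hii l hl) (hss l hl))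
  have aux : ∀ l l', l ∈ C k → l' ∈ C k → ii l = ii l' → ss l = ss l' → ¬ l < l' := by
    intro l l' hl hl' e1 e2 hlt
    have hmem : sInf {m | m ∈ C k ∧ l < m} ∈ {m | m ∈ C k ∧ l < m} := csInf_mem ⟨l', hl', hlt⟩
    have hmin : ∀ m' ∈ C k, l < m' → sInf {m | m ∈ C k ∧ l < m} ≤ m' :=
      fun m' h h' => csInf_le' ⟨h, h'⟩
    have a1 := h1 l hl _ hmem.1 hmem.2 hmin
    have a2 := h2 l' hl' _ hmem.1 (hmin l' hl' hlt)
    rw [e1, e2] at a1
    exact lt_asymm a1 a2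
  refine hfib (Sz_of_subsingleton (fun l hl l' hl' => ?_) hv)
  have e1 : ii l = ii l' := hl.2.1.trans hl'.2.1.symm
  have e2 : ss l = ss l' := hl.2.2.trans hl'.2.2.symm
  exact le_antisymm (not_lt.1 (aux l' l hl'.1 hl.1 e1.symm e2.symm))
    (not_lt.1 (aux l l' hl.1 hl'.1 e1 e2))

end Pool.Agent.MP_ef13ad_lc
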