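import Pool.Agent.Lib.MP_ef13ad_lc.Base

open Cardinal Ordinal Set Order

namespace Pool.Agent.MP_ef13ad_lc

theorem exists_seq {v l t : Cardinal.{0}} (m : Ordinal.{0} → Cardinal.{0}) (ht : ℵ₀ ≤ t)
    (hm : ∀ i < v.ord, t ≤ m i ∧ m i < l)
    (hcof : ∀ g < l.ord, AE v.ord (fun i => g < (m i).ord)) :
    ∃ F : Ordinal.{0} → Ordinal.{0} → Ordinal.{0},
      (∀ b < (succ l).ord, ∀ i < v.ord, F b i < l.ord) ∧ Inc v.ord F (succ l).ord ∧
      Star v.ord F t (succ l).ord := by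
  choose c _ hc2 hc3 using exists_cofSeq
  have h0 : ∀ a < (succ l).ord, ∃ e : Ordinal.{0} → Ordinal.{0},
      InjOn e (Iio a) ∧ ∀ b ∈ Iio a, e b < l.ord := fun a ha =>
    (Sz_Iio (lt_succ_iff.1 (Cardinal.lt_ord.1 ha))).exists_injOn
  choose! e he1 he2 using h0
  let B : Ordinal.{0} → Ordinal.{0} → Set Ordinal.{0} := fun a i =>
    {b | b < a ∧ (e a b < (m i).ord ∨ ∃ g < t.ord, sSup (c a '' Iio g) = b)}
  have hB : ∀ a < (succ l).ord, ∀ i < v.ord, Sz (B a i) (m i) := by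
    intro a ha i hi
    have h1 : Sz {b | b < a ∧ e a b < (m i).ord} (m i) :=
      Sz_of_injOn (Sz_Iio_ord (m i)) ((he1 a ha).mono fun b hb => hb.1) fun b hb => hb.2
    have h2 : Sz ((fun g => sSup (c a '' Iio g)) '' Iio t.ord) (m i) :=
      ((Sz_Iio_ord t).image _).trans_le (hm i hi).1
    refine (h1.union h2 (ht.trans (hm i hi).1)).mono ?_
    rintro b ⟨hb, h | ⟨g, hg, h⟩⟩
    · exact Or.inl ⟨hb, h⟩
    · exact Or.inr ⟨g, hg, h⟩
  obtain ⟨F, hF⟩ := exists_rec (β := Ordinal.{0} → Ordinal.{0})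
    (fun j x b => ∀ i, b i = sSup ((fun y => x y i + 1) '' B j i))
    (fun j x y b hxy h i => by
      rw [h i]
      congr 1
      exact image_congr fun z hz => by rw [hxy z hz.1])
    (fun j x => ⟨fun i => sSup ((fun y => x y i + 1) '' B j i), fun _ => rfl⟩)
  have hlt : ∀ a < (succ l).ord, ∀ i < v.ord, ∀ b ∈ B a i, F b i < F a i := by
    intro a ha i hi b hb
    rw [hF a i]
    exact (lt_add_one _).trans_le (le_csSup ((hB a ha i hi).image _).bddAbove ⟨b, hb, rfl⟩)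
  refine ⟨F, fun a ha i hi => ?_, fun b a hba ha => ?_, fun a ha hat => ?_⟩
  · have hr : (succ (m i)).IsRegular := isRegular_succ (ht.trans (hm i hi).1)
    have key : ∀ a < (succ l).ord, F a i < (succ (m i)).ord := by
      intro a
      induction a using WellFoundedLT.induction with
      | ind a ih =>
        intro ha
        rw [hF a i]
        refine ((hB a ha i hi).image _).sSup_lt (by rw [hr.cof_ord]; exact lt_succ _) ?_
        rintro _ ⟨b, hb, rfl⟩
        exact (isSuccLimit_ord hr.aleph0_le).add_one_lt (ih b hb.1 (hb.1.trans ha))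
    exact (key a ha).trans_le (Cardinal.ord_le_ord.2 (succ_le_of_lt (hm i hi).2))
  · exact (hcof _ (he2 a ha b hba)).mono fun i hi h => hlt a ha i hi b ⟨hba, Or.inl h⟩
  · subst hat
    refine ⟨c a, hc2 a, hc3 a, fun g hg i hi => hlt a ha i hi _ ⟨?_, Or.inr ⟨g, hg, rfl⟩⟩⟩
    exact sSup_image_lt (Cardinal.lt_ord.1 hg) fun j hj => hc2 a j (hj.trans hg)

end Pool.Agent.MP_ef13ad_lc
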