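import Pool.Agent.Lib.MP_ef13ad_lc.Guess
import Pool.Agent.Lib.MP_ef13ad_lc.Seq
import Pool.Agent.Lib.MP_ef13ad_lc.Proj
import Pool.Agent.Lib.MP_ef13ad_lc.Eub
import Pool.Agent.Lib.MP_ef13ad_lc.CofEub
import Pool.Agent.Lib.MP_ef13ad_lc.GoodPt

open Cardinal Ordinal Set Order

namespace Pool.Agent.MP_ef13ad_lc

theorem local_lt_aleph {o : Ordinal.{0}} (ho : IsSuccLimit o) {c : Cardinal.{0}}
    (h : c < ℵ_ o) : ∃ i < o, c < ℵ_ i :=
  (isNormal_aleph.lt_iff_exists_lt ho).1 h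

theorem local_succ_lt {o : Ordinal.{0}} (ho : IsSuccLimit o) {c : Cardinal.{0}}
    (h : c < ℵ_ o) : succ c < ℵ_ o := by
  obtain ⟨i, hi, hc⟩ := local_lt_aleph ho h
  exact (succ_le_of_lt hc).trans_lt (aleph_lt_aleph.2 hi)

theorem local_cof_lt {v : Cardinal.{0}} (hv : v.IsRegular) (hlt : v < ℵ_ v.ord)
    {a : Ordinal.{0}} (ha : a < (succ (ℵ_ v.ord)).ord) : a.cof < ℵ_ v.ord := by
  have h1 : a.cof ≤ ℵ_ v.ord := (cof_le_card a).trans (lt_succ_iff.1 (lt_ord.1 ha))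
  refine lt_of_le_of_ne h1 fun h => ?_
  have h2 : a.cof.ord.cof = a.cof := cof_ord_cof a
  rw [h, ord_aleph, cof_omega (isSuccLimit_ord hv.aleph0_le), hv.cof_ord] at h2
  exact hlt.ne h2

theorem exists_good_seq {v : Cardinal.{0}} (hv : v.IsRegular) (hlt : v < ℵ_ v.ord) :
    ∃ F : Ordinal.{0} → Ordinal.{0} → Ordinal.{0},
      (∀ b < (succ (ℵ_ v.ord)).ord, ∀ i < v.ord, F b i < (ℵ_ v.ord).ord) ∧
      Inc v.ord F (succ (ℵ_ v.ord)).ord ∧
      ∀ a < (succ (ℵ_ v.ord)).ord, Good v.ord F a ∨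
        a.cof ∈ ({0, 1, v, succ v, succ (succ v), succ (succ (succ v))} : Finset Cardinal.{0}) := by
  have hv0 : ℵ₀ ≤ v := hv.aleph0_le
  have hlim : IsSuccLimit v.ord := isSuccLimit_ord hv0
  have h2 : ℵ₀ ≤ succ (succ v) := hv0.trans ((le_succ _).trans (le_succ _))
  have ht : (succ (succ (succ v))).IsRegular := isRegular_succ h2
  have htl : succ (succ (succ v)) < ℵ_ v.ord :=
    local_succ_lt hlim (local_succ_lt hlim (local_succ_lt hlim hlt))
  obtain ⟨F, hb, hF, hS⟩ := exists_seq (v := v) (l := ℵ_ v.ord) (t := succ (succ (succ v)))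
    (fun i => max (succ (succ (succ v))) (ℵ_ i)) ht.aleph0_le
    (fun i hi => ⟨le_max_left _ _, max_lt htl (aleph_lt_aleph.2 hi)⟩)
    (fun g hg => by
      obtain ⟨j, hj, hg'⟩ := local_lt_aleph hlim (lt_ord.1 hg)
      exact ⟨j, hj, fun i h1 _ =>
        lt_ord.2 (hg'.trans_le ((aleph_le_aleph.2 h1).trans (le_max_right _ _)))⟩)
  obtain ⟨C, hC⟩ := exists_guess hv0
  refine ⟨F, hb, hF, fun a ha => ?_⟩
  by_cases hm : a.cof ∈
      ({0, 1, v, succ v, succ (succ v), succ (succ (succ v))} : Finset Cardinal.{0})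
  · exact Or.inr hm
  left
  simp only [Finset.mem_insert, Finset.mem_singleton, not_or] at hm
  obtain ⟨n0, n1, n2, n3, n4, n5⟩ := hm
  have hFa : Inc v.ord F a := hF.mono ha.le
  rcases lt_or_gt_of_ne n2 with hs | hs
  · exact good_of_small hv (lt_of_le_of_ne (Cardinal.one_le_iff_ne_zero.2 n0) (Ne.symm n1)) hs hFa
  · have k1 : succ v < a.cof := lt_of_le_of_ne (succ_le_of_lt hs) (Ne.symm n3)
    have k2 : succ (succ v) < a.cof := lt_of_le_of_ne (succ_le_of_lt k1) (Ne.symm n4)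
    have k3 : succ (succ (succ v)) < a.cof := lt_of_le_of_ne (succ_le_of_lt k2) (Ne.symm n5)
    have hBP : BP v F a := bp_of_guess hv0 ht hC k3 hFa fun e he => hS e (he.trans ha)
    obtain ⟨h, hh⟩ := exists_eub (top := (ℵ_ v.ord).ord) hv0 k1 hFa
      (fun b hb' i hi => (hb b (hb'.trans ha) i hi).le) hBP
    obtain ⟨z, hz, hz'⟩ := local_lt_aleph hlim (local_cof_lt hv hlt ha)
    refine good_of_eub hv0 hs hFa hh (cof_of_eub (c := z.card)
      (T := (fun y => ω_ y) '' Iio z) hv hs hFa hh (lt_ord.1 hz)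
      ((Sz_Iio le_rfl).image _) fun s h1 h3 => ?_)
    obtain ⟨y, rfl⟩ := mem_range_aleph_iff.2 (hv0.trans h1.le)
    exact ⟨y, aleph_lt_aleph.1 (h3.trans hz'), (ord_aleph y).symm⟩

end Pool.Agent.MP_ef13ad_lc
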