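import Pool.Agent.Lib.MP_ef13ad_lc.Base

open Cardinal Ordinal Set Order

namespace Pool.Agent.MP_ef13ad_lc

theorem filt_of_cof {k : Cardinal.{0}} {K : Set Ordinal.{0}} (hk : k.ord.cof = ℵ₀) (hK : Sz K k) :
    Filt K k := by
  obtain ⟨w, hw, hwk⟩ := hK.exists_injOn
  obtain ⟨c, hc, hck, hcof⟩ := exists_cofSeq k.ord
  rw [hk, ord_aleph0] at hc hck hcof
  have hn : ∀ m : ℕ, (m : Ordinal.{0}) < ω := fun m => natCast_lt_omega0 m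
  refine ⟨fun m => {x | x ∈ K ∧ w x < c m}, ?_, ?_, ?_⟩
  · intro m m' hm x hx
    exact ⟨hx.1, hx.2.trans_le (hc.monotoneOn (hn m) (hn m') (Nat.cast_le.2 hm))⟩
  · intro x hx
    obtain ⟨j, hj, h⟩ := hcof _ (hwk x hx)
    obtain ⟨m, rfl⟩ := lt_omega0.1 hj
    exact ⟨m + 1, hx, h.trans_lt (hc (hn m) (hn (m + 1)) (Nat.cast_lt.2 (Nat.lt_succ_self m)))⟩
  · intro m
    refine ⟨(c m).card, lt_ord.1 (hck _ (hn m)), ?_⟩
    exact Sz_of_injOn (Sz_Iio le_rfl) (hw.mono fun x hx => hx.1) fun x hx => hx.2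

theorem Filt.exists_cofinal {k : Cardinal.{0}} {K D : Set Ordinal.{0}} (h : Filt K k)
    (hk : ℵ₀ < k) (hD : D ⊆ K) :
    ∃ C ⊆ D, (∃ c < k, Sz C c) ∧ ∀ x ∈ D, ∃ y ∈ C, x ≤ y := by
  obtain ⟨B, -, hB, hS⟩ := h
  by_cases hc : ∃ m, ∀ x ∈ D, ∃ y ∈ D ∩ B m, x ≤ y
  · obtain ⟨m, hm⟩ := hc
    obtain ⟨c, hck, hs⟩ := hS m
    exact ⟨D ∩ B m, inter_subset_left, ⟨c, hck, hs.mono inter_subset_right⟩, hm⟩
  · push Not at hc
    choose t ht ht' using hc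
    refine ⟨range t, range_subset_iff.2 ht, ⟨ℵ₀, hk, Sz_of_countable (countable_range t) le_rfl⟩,
      fun x hx => ?_⟩
    obtain ⟨m, hm⟩ := hB x (hD hx)
    exact ⟨t m, mem_range_self m, (ht' m x ⟨hx, hm⟩).le⟩

end Pool.Agent.MP_ef13ad_lc
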