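import Pool.Agent.Lib.MP_ef13ad_lc.Base

open Cardinal Ordinal Set Order

namespace Pool.Agent.MP_ef13ad_lc

theorem exists_closed {t r : Cardinal.{0}} (ht : t.IsRegular) (hr : r.IsRegular) (hrt : r < t)
    (p : Ordinal.{0} → Ordinal.{0}) (hp : ∀ j < t.ord, p j < t.ord) :
    ∃ e < t.ord, e.cof = r ∧ ∀ b < e, p b < e := by
  have hcof : t.ord.cof = t := ht.cof_ord
  have hlim : IsSuccLimit t.ord := isSuccLimit_ord ht.aleph0_le
  have hlr : IsSuccLimit r.ord := isSuccLimit_ord hr.aleph0_le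
  have step : ∀ y : Ordinal.{0}, ∃ z, y < z ∧ (∀ b ≤ y, p b < z) ∧ (y < t.ord → z < t.ord) := by
    intro y
    refine ⟨max y (sSup (p '' Iio (y + 1))) + 1, (le_max_left _ _).trans_lt (lt_add_one _),
      fun b hb => ?_, fun hy => ?_⟩
    · exact ((le_sSup_image p (hb.trans_lt (lt_add_one y))).trans (le_max_right _ _)).trans_lt
        (lt_add_one _)
    · have h1 : y + 1 < t.ord := hlim.add_one_lt hy
      refine hlim.add_one_lt (max_lt hy (sSup_image_lt ?_ fun j hj => hp j (hj.trans h1)))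
      rw [hcof]
      exact Cardinal.lt_ord.1 h1
  choose Z z1 z2 z3 using step
  obtain ⟨x, hx⟩ := exists_rec (β := Ordinal.{0}) (fun j x b => b = Z (sSup (x '' Iio j)))
    (fun j x y b h e => by
      have : x '' Iio j = y '' Iio j := image_congr fun l hl => h l hl
      rw [← this]; exact e) (fun j x => ⟨_, rfl⟩)
  have hlt : ∀ j, j < r.ord → x j < t.ord := by
    intro j
    induction j using WellFoundedLT.induction with
    | ind j ih =>
      intro hj
      rw [hx j]
      refine z3 _ (sSup_image_lt ?_ fun l hl => ih l hl (hl.trans hj))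
      rw [hcof]
      exact (Cardinal.lt_ord.1 hj).trans hrt
  have hmono : StrictMonoOn x (Iio r.ord) := by
    intro a _ b _ hab
    rw [hx b]
    exact (le_sSup_image x hab).trans_lt (z1 _)
  refine ⟨sSup (x '' Iio r.ord), sSup_image_lt ?_ hlt, cof_sSup_image hr hmono, fun b hb => ?_⟩
  · rw [hcof, card_ord]
    exact hrt
  · obtain ⟨j, hj, h⟩ := lt_sSup_image hb
    refine lt_of_lt_of_le ?_ (le_sSup_image x (hlr.add_one_lt hj))
    rw [hx (j + 1)]
    exact z2 _ b (h.le.trans (le_sSup_image x (lt_add_one j)))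

theorem exists_guess {v : Cardinal.{0}} (hv : ℵ₀ ≤ v) :
    ∃ C, Guess v (succ (succ (succ v))) C := by
  by_contra hn
  have hvr : v < succ v := lt_succ v
  have hr : (succ v).IsRegular := isRegular_succ hv
  have hs : (succ (succ v)).IsRegular := isRegular_succ hr.aleph0_le
  have ht : (succ (succ (succ v))).IsRegular := isRegular_succ hs.aleph0_le
  have hrs : succ v < succ (succ v) := lt_succ _
  have hst : succ (succ v) < succ (succ (succ v)) := lt_succ _
  have hle : ∀ b : Ordinal.{0}, b < (succ (succ (succ v))).ord → b.card ≤ succ (succ v) :=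
    fun b hb => le_of_lt_succ (Cardinal.lt_ord.1 hb)
  generalize succ (succ (succ v)) = t at *
  generalize succ (succ v) = s at *
  generalize succ v = r at *
  choose c _ c2 c3 using exists_cofSeq
  obtain ⟨C0, hC0⟩ : ∃ C0 : Ordinal.{0} → Set Ordinal.{0},
      ∀ k, C0 k = (fun g => sSup (c k '' Iio g)) '' Iio r.ord := ⟨_, fun _ => rfl⟩
  have hin : ∀ k : Ordinal.{0}, k.cof = r → ∀ g ∈ C0 k, g < k := by
    intro k hk g hg
    rw [hC0] at hg
    obtain ⟨j, hj, rfl⟩ := hg
    have hj' : j < r.ord := hj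
    refine sSup_image_lt ?_ fun l hl => c2 k l ?_
    · rw [hk]
      exact Cardinal.lt_ord.1 hj'
    · rw [hk]
      exact hl.trans hj'
  have key : ∀ E : Set Ordinal.{0}, ∃ p : Ordinal.{0} → Ordinal.{0},
      (∀ j < t.ord, p j < t.ord) ∧ ∀ k < t.ord, k.cof = r →
        (∀ g ∈ C0 k, g ∈ E → ∀ j < g, p j < g) → Sz (C0 k ∩ E) v := by
    intro E
    by_contra h
    refine hn ⟨fun k => {g | k.cof = r ∧ g ∈ C0 k ∧ g ∈ E}, fun p hp => ?_⟩
    by_contra h2
    refine h ⟨p, hp, fun k hk hkr hcl => ?_⟩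
    by_contra h3
    refine h2 ⟨k, hk, fun g hg => (hin k hkr g hg.2.1).trans hk, fun h4 => h3 (h4.mono ?_),
      fun g hg => hcl g hg.2.1 hg.2.2⟩
    exact fun g hg => ⟨hkr, hg.1, hg.2⟩
  choose π p1 p2 using key
  obtain ⟨x, hx⟩ := exists_rec (β := Ordinal.{0} → Ordinal.{0})
    (fun z x b => b = π {g | ∀ z' < z, ∀ j < g, x z' j < g})
    (fun z x y b h e => by
      have : {g | ∀ z' < z, ∀ j < g, x z' j < g} = {g | ∀ z' < z, ∀ j < g, y z' j < g} :=
        Set.ext fun g => ⟨fun k z' hz j hj => h z' hz ▸ k z' hz j hj,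
          fun k z' hz j hj => (h z' hz).symm ▸ k z' hz j hj⟩
      rw [← this]; exact e) (fun z x => ⟨_, rfl⟩)
  have x1 : ∀ z, ∀ j < t.ord, x z j < t.ord := fun z => by
    rw [hx z]
    exact p1 _
  have bound : ∀ b : Ordinal.{0}, ∃ w, b < t.ord →
      w < t.ord ∧ ∀ z < s.ord, ∀ y < b, x z y < w := by
    intro b
    by_cases hb : b < t.ord
    · have hz : Sz (⋃ z ∈ Iio s.ord, x z '' Iio b) s :=
        (Sz_Iio_ord s).biUnion (fun z _ => (Sz_Iio (hle b hb)).image _) hs.aleph0_le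
      obtain ⟨w, hw, hw'⟩ := hz.exists_bound (o := t.ord) (by rw [ht.cof_ord]; exact hst)
        (fun a ha => by
          obtain ⟨z, -, y, hy, rfl⟩ := mem_iUnion₂.1 ha
          exact x1 z y (lt_trans hy hb))
      exact ⟨w, fun _ => ⟨hw, fun z hz y hy => hw' _ (mem_biUnion hz ⟨y, hy, rfl⟩)⟩⟩
    · exact ⟨0, fun h => absurd h hb⟩
  choose P hP using bound
  obtain ⟨k, hk, hkr, hkP⟩ := exists_closed ht hr (hrs.trans hst) P fun j hj => (hP j hj).1
  have hsz : Sz (C0 k) r := by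
    rw [hC0]
    exact (Sz_Iio_ord r).image _
  have hs0 : (0 : Ordinal.{0}) < s.ord := (isSuccLimit_ord hs.aleph0_le).bot_lt
  obtain ⟨zs, hzs, hz'⟩ := hsz.exists_bound_of_forall (o := s.ord)
    (R := fun a y => (∀ j < a, x y j < a) → ∀ z < s.ord, ∀ j < a, x z j < a)
    (by rw [hs.cof_ord]; exact hrs) (fun a _ => by
      by_cases h : ∀ z < s.ord, ∀ j < a, x z j < a
      · exact ⟨0, hs0, fun _ => h⟩
      · by_contra h2
        refine h fun z hz => ?_
        by_contra h3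
        exact h2 ⟨z, hz, fun h4 => absurd h4 h3⟩)
  have hsm : Sz (C0 k ∩ {g | ∀ z' < zs, ∀ j < g, x z' j < g}) v := by
    refine p2 _ k hk hkr fun g hg hE => ?_
    rw [← hx zs]
    obtain ⟨y, hy, h⟩ := hz' g hg
    exact h (hE y hy) zs hzs
  obtain ⟨b, hb, hb'⟩ := hsm.exists_bound (o := k) (by rw [hkr]; exact hvr)
    (fun a ha => hin k hkr a ha.1)
  have ck : ∀ j < r.ord, c k j < k := fun j hj => c2 k j (by rw [hkr]; exact hj)
  have nxt : ∀ j : Ordinal.{0}, ∃ j', j < r.ord →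
      j' < r.ord ∧ max b (P (c k j)) ≤ c k j' := by
    intro j
    by_cases hj : j < r.ord
    · obtain ⟨j', h1, h2⟩ := c3 k _ (max_lt hb (hkP _ (ck j hj)))
      rw [hkr] at h1
      exact ⟨j', fun _ => ⟨h1, h2⟩⟩
    · exact ⟨0, fun h => absurd h hj⟩
  choose q hq using nxt
  obtain ⟨g, hg, hg0, hgq⟩ := exists_closed hr isRegular_aleph0 (hv.trans_lt hvr) q
    fun j hj => (hq j hj).1
  have g0 : (0 : Ordinal.{0}) < g := by
    refine pos_iff_ne_zero.2 ?_
    rintro rfl
    rw [Ordinal.cof_zero] at hg0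
    exact aleph0_ne_zero hg0.symm
  have h1 : b ≤ sSup (c k '' Iio g) :=
    ((le_max_left _ _).trans (hq 0 (g0.trans hg)).2).trans (le_sSup_image _ (hgq 0 g0))
  refine h1.not_gt (hb' _ ⟨?_, fun z hz y hy => ?_⟩)
  · rw [hC0]
    exact ⟨g, hg, rfl⟩
  · obtain ⟨j, hj, h⟩ := lt_sSup_image hy
    have hjr : j < r.ord := hj.trans hg
    exact ((hP _ ((ck j hjr).trans hk)).2 z (hz.trans hzs) y h).trans_le
      (((le_max_right _ _).trans (hq j hjr).2).trans (le_sSup_image _ (hgq j hj)))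

end Pool.Agent.MP_ef13ad_lc
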