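import Pool.Agent.Lib.MP_ef13ad_lc.Local
import Pool.Agent.Lib.MP_ef13ad_lc.Clash

open Cardinal Ordinal Set Order

namespace Pool.Agent.MP_ef13ad_lc

/-- The local theorem: if `v` is regular, `v < ℵ_v`, `k` is uncountable of countable cofinality and
`CC (ℵ_v) k` holds, then `CC k u` fails for all large `u < k`. -/
theorem local_clash (v k : Cardinal.{0}) (hv : v.IsRegular) (hlt : v < ℵ_ v.ord) (hk : ℵ₀ < k)
    (hk' : k.ord.cof = ℵ₀) (h : CC (ℵ_ v.ord) k) :
    ∃ u0 < k, ∀ u, u0 ≤ u → u < k → ¬ CC k u := by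
  by_contra hc
  push Not at hc
  obtain ⟨F, h1, h2, h3⟩ := exists_good_seq hv hlt
  exact clash _ (aleph0_le_aleph _) (ord_le_ord.2 hlt.le) hk hk' h1 h2 h3 h hc

end Pool.Agent.MP_ef13ad_lc
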