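import Pool.Agent.Lib.MP_ef13ad_lc.Code

open Cardinal Ordinal Set Order

namespace Pool.Agent.MP_ef13ad_lc

theorem CC.transfer {k u : Cardinal.{0}} (h : CC k u) (hk : ℵ₀ ≤ k) {E K : Set Ordinal.{0}}
    (hE : ¬ Sz E k) (hE' : ∀ x ∈ E, Sz (E ∩ Iio x) k) (hK : Sz K k)
    (g : ℕ → Ordinal.{0} → Ordinal.{0}) (hg : ∀ m, ∀ z ∈ E, g m z ∈ K) :
    ∃ Z ⊆ E, ¬ Sz Z u ∧ Sz Z (succ u) ∧ (∀ z ∈ Z, Sz (Z ∩ Iio z) u) ∧
      ∃ V, Sz V u ∧ ∀ m, ∀ z ∈ Z, g m z ∈ V := by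
  classical
  obtain ⟨p, hp, hpE⟩ := exists_injOn_of_not_Sz hE
  obtain ⟨w, hw, hwk⟩ := hK.exists_injOn
  have hkL : k.ord < (succ k).ord := Cardinal.ord_lt_ord.2 (lt_succ k)
  have hq : ∀ x : Ordinal.{0}, ∃ q : Ordinal.{0} → Ordinal.{0}, x < (succ k).ord →
      InjOn q {y | y < (succ k).ord ∧ p y < p x} ∧
        ∀ y ∈ {y | y < (succ k).ord ∧ p y < p x}, q y < k.ord := by
    intro x
    by_cases hx : x < (succ k).ord
    · have h1 : Sz {y | y < (succ k).ord ∧ p y < p x} k :=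
        Sz_of_injOn (f := p) (hE' _ (hpE x hx)) (hp.mono fun y hy => hy.1)
          (fun y hy => ⟨hpE y hy.1, hy.2⟩)
      obtain ⟨q, h2, h3⟩ := h1.exists_injOn
      exact ⟨q, fun _ => ⟨h2, h3⟩⟩
    · exact ⟨id, fun h => absurd h hx⟩
  choose q hq using hq
  let G : ℕ → Ordinal.{0} → Ordinal.{0} → Ordinal.{0} := fun m x y =>
    if m = 0 then (if p y < p x then q x y else 0) else w (g (m - 1) (p x))
  have hG : ∀ m, ∀ x < (succ k).ord, ∀ y < (succ k).ord, G m x y < (succ k).ord := by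
    intro m x hx y hy
    simp only [G]
    split_ifs with h1 h2
    · exact ((hq x hx).2 y ⟨hy, h2⟩).trans hkL
    · exact lt_of_le_of_lt zero_le hkL
    · exact (hwk _ (hg _ _ (hpE x hx))).trans hkL
  obtain ⟨Y, hY, -, hc, h1, h2, h3, -⟩ := h.closed hk G hG
  refine ⟨p '' Y, ?_, ?_, h2.image p, ?_, {z | z ∈ K ∧ w z ∈ Y ∩ Iio k.ord}, ?_, ?_⟩
  · rintro _ ⟨y, hy, rfl⟩
    exact hpE y (hY hy)
  · exact fun hs => h1 (Sz_of_injOn (f := p) hs (hp.mono hY) fun a ha => ⟨a, ha, rfl⟩)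
  · rintro _ ⟨x, hx, rfl⟩
    have h4 : Sz {y | y ∈ Y ∧ p y < p x} u := by
      have h7 : {y | y ∈ Y ∧ p y < p x} ⊆ {y | y < (succ k).ord ∧ p y < p x} :=
        fun y hy => ⟨hY hy.1, hy.2⟩
      refine Sz_of_injOn (f := q x) h3 ((hq x (hY hx)).1.mono h7) ?_
      intro y hy
      refine ⟨?_, (hq x (hY hx)).2 y ⟨hY hy.1, hy.2⟩⟩
      have h5 := hc 0 x hx y hy.1
      simpa only [G, if_true, if_pos hy.2] using h5
    refine (h4.image p).mono ?_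
    rintro _ ⟨⟨y, hy, rfl⟩, h5⟩
    exact ⟨y, ⟨hy, h5⟩, rfl⟩
  · exact Sz_of_injOn (f := w) h3 (hw.mono fun z hz => hz.1) fun z hz => hz.2
  · rintro m _ ⟨x, hx, rfl⟩
    have h5 := hg m _ (hpE x (hY hx))
    refine ⟨h5, ?_, hwk _ h5⟩
    have h6 := hc (m + 1) x hx x hx
    simpa only [G, Nat.add_one_ne_zero, if_false, Nat.add_sub_cancel] using h6

end Pool.Agent.MP_ef13ad_lc
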