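import Pool.Agent.Lib.MP_ef13ad_lc.Global

open Cardinal Ordinal Set Order

namespace Pool.Agent.MP_ef13ad_lc

theorem window_of_local
    (H : ∀ v k : Cardinal.{0}, v.IsRegular → v < ℵ_ v.ord → ℵ₀ < k → k.ord.cof = ℵ₀ →
      CC (ℵ_ v.ord) k → ∃ u0 < k, ∀ u, u0 ≤ u → u < k → ¬ CC k u) (a : Ordinal.{0}) :
    ∃ k l : Cardinal.{0}, ℵ_ a < k ∧ k < l ∧ l ≤ ℵ_ (ω_ (a + ω * ω + 1)) ∧
      k.IsSingular ∧ l.IsSingular ∧ (k < l.ord.cof ∨ k.ord.cof = l.ord.cof) ∧ ¬ CC l k := by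
  by_contra h
  push Not at h
  have hw : IsSuccLimit (ω : Ordinal.{0}) := isSuccLimit_omega0
  have hww : IsSuccLimit (ω * ω : Ordinal.{0}) := isSuccLimit_mul_right omega0_pos hw
  have ho : IsSuccLimit (a + ω * ω) := isSuccLimit_add a hww
  obtain ⟨k0, k1, k2⟩ := global_sing ho (by
    rw [cof_add _ hww.ne_bot, cof_mul omega0_ne_zero hw.isSuccPrelimit, cof_omega0])
  have hv : (ℵ_ (a + ω * ω + 1)).IsRegular := isRegular_aleph_add_one _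
  have hlim : IsSuccLimit (ω_ (a + ω * ω + 1)) := by
    rw [← ord_aleph]
    exact isSuccLimit_ord hv.aleph0_le
  have hkv : ℵ_ (a + ω * ω) < ℵ_ (a + ω * ω + 1) := aleph_lt_aleph.2 (lt_add_one _)
  have hlt : ℵ_ (a + ω * ω + 1) < ℵ_ (ω_ (a + ω * ω + 1)) := by
    rw [aleph_lt_aleph]
    exact hlim.add_one_lt ((le_omega_self _).trans_lt (omega_lt_omega.2 (lt_add_one _)))
  have hcof : (ℵ_ (ω_ (a + ω * ω + 1))).ord.cof = ℵ_ (a + ω * ω + 1) := by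
    rw [ord_aleph, cof_omega hlim, cof_omega_add_one]
  have hak : ℵ_ a < ℵ_ (a + ω * ω) := aleph_lt_aleph.2 (lt_add_of_pos_right a hww.pos)
  obtain ⟨u0, hu0, hu⟩ := H _ _ hv (by rw [ord_aleph]; exact hlt) k0 k1 (by
    rw [ord_aleph]
    exact h _ _ hak (hkv.trans hlt) le_rfl k2
      (isSingular_aleph_iff.2 ⟨hlim, by rw [cof_omega_add_one]; exact hlt⟩)
      (Or.inl (by rw [hcof]; exact hkv)))
  obtain ⟨b, hb, hb'⟩ := (isNormal_aleph.lt_iff_exists_lt ho).1 hu0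
  obtain ⟨d, hd, hd'⟩ := (lt_add_iff_of_isSuccLimit hww).1 hb
  obtain ⟨c, hc, hc'⟩ := (lt_mul_iff_of_isSuccLimit hw).1 hd
  have h1 : ω * c + ω < ω * ω := by
    rw [← mul_add_one]
    exact mul_lt_mul_of_pos_left (hw.add_one_lt hc) omega0_pos
  have hl2 : IsSuccLimit (ω * c + ω) := isSuccLimit_add (ω * c) hw
  obtain ⟨-, u1, u2⟩ := global_sing (isSuccLimit_add a hl2) (by
    rw [cof_add _ hl2.ne_bot, cof_add _ omega0_ne_zero, cof_omega0])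
  have h2 : ℵ_ (a + (ω * c + ω)) < ℵ_ (a + ω * ω) :=
    aleph_lt_aleph.2 (add_lt_add_right h1 a)
  have h3 : b ≤ a + (ω * c + ω) :=
    hd'.le.trans (add_le_add_right (hc'.le.trans le_self_add) a)
  exact hu _ (hb'.le.trans (aleph_le_aleph.2 h3)) h2
    (h _ _ (aleph_lt_aleph.2 (lt_add_of_pos_right a hl2.pos)) h2 (hkv.trans hlt).le u2 k2
      (Or.inr (u1.trans k1.symm)))

end Pool.Agent.MP_ef13ad_lc
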